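import Pool.Agent.Mg.F9152e2.Gd2f786

/-! The type II infinity action. -/

set_option autoImplicit false
set_option linter.style.haveILetI false
set_option linter.unusedSectionVars false

open MeasureTheory Set Filter Topology
open scoped ENNReal

namespace Pool.Agent.MP_9152e2_an

noncomputable section

lemma wm_apply {Ω : Type} [Fintype Ω] [MeasurableSpace Ω] [DiscreteMeasurableSpace Ω]
    (ω : Ω → ℝ) (S : Set Ω) :
    wm ω S = ∑ x, S.indicator (fun x => ENNReal.ofReal (ω x)) x := by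
  rw [wm, Measure.finsetSum_apply]
  refine Finset.sum_congr rfl fun x _ => ?_
  by_cases hx : x ∈ S <;> simp [hx]

lemma count_lt (M N : ℕ) (h : N ≤ M) :
    ∑ k : Fin M, (if (k : ℕ) < N then (1 : ℝ) else 0) = N := by
  rw [Fin.sum_univ_eq_sum_range (fun k => if k < N then (1 : ℝ) else 0) M, Finset.sum_boole]
  have : (Finset.range M).filter (fun k => k < N) = Finset.range N := by
    ext k; simp only [Finset.mem_filter, Finset.mem_range]; omega
  rw [this, Finset.card_range]

lemma count_between (M N N' : ℕ) (h : N ≤ M) :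
    ∑ k : Fin M, (if (k : ℕ) < N ∧ ¬ (k : ℕ) < N' then (1 : ℝ) else 0) = max ((N : ℝ) - N') 0 := by
  have e : ∀ k : Fin M, (if (k : ℕ) < N ∧ ¬ (k : ℕ) < N' then (1 : ℝ) else 0) =
      (if (k : ℕ) < N then (1 : ℝ) else 0) - (if (k : ℕ) < min N N' then (1 : ℝ) else 0) := by
    intro k
    by_cases h1 : (k : ℕ) < N <;> by_cases h2 : (k : ℕ) < N' <;> simp [h1, h2]
  simp_rw [e]
  rw [Finset.sum_sub_distrib, count_lt M N h, count_lt M _ ((min_le_left _ _).trans h)]
  rcases le_total N N' with hh | hh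
  · have : (N : ℝ) ≤ N' := by exact_mod_cast hh
    rw [min_eq_left hh, max_eq_right (by linarith), sub_self]
  · have : (N' : ℝ) ≤ N := by exact_mod_cast hh
    rw [min_eq_right hh, max_eq_left (by linarith)]

/-- integer weights on the light cube -/
def NN (n : ℕ) (l : Lt n → ZMod 2) : ℕ := ∏ i, if l i = 0 then ss n + 2 else ss n - 2

/-- normalising constant -/
def cc (n : ℕ) : ℝ := (1 / (2 * ss n)) ^ Fintype.card (Lt n)

lemma cc_pos (n : ℕ) : 0 < cc n := by unfold cc; have := ss_pos n; positivity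

lemma NN_cc (n : ℕ) (l : Lt n → ZMod 2) : NN n l * cc n = pw (fun _ => 1 / ss n) l := by
  unfold NN cc pw
  push_cast
  rw [← Finset.card_univ, ← Finset.prod_const, ← Finset.prod_mul_distrib]
  refine Finset.prod_congr rfl fun i _ => ?_
  have hs := ss_pos n
  have h2 : 2 ≤ ss n := by have := ss_ge n; omega
  unfold bw
  split_ifs
  · field_simp
  · rw [Nat.cast_sub h2]; push_cast; field_simp

lemma NN_le (n : ℕ) (l : Lt n → ZMod 2) : NN n l ≤ 2 ^ jj n := by
  calc NN n l ≤ ∏ _i : Lt n, 2 ^ (ss n + 2) := by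
        refine Finset.prod_le_prod' fun i _ => ?_
        have := Nat.lt_two_pow_self (n := ss n + 2)
        split_ifs <;> omega
    _ = 2 ^ jj n := by
        rw [Finset.prod_const, Finset.card_univ, card_Lt, ← pow_mul, jj_eq]

lemma cc_le (n : ℕ) : cc n ≤ 1 / 2 := by
  have hs := ss_ge' n
  have h1 : (1 : ℝ) / (2 * ss n) ≤ 1 / 2 := one_div_le_one_div_of_le (by norm_num) (by linarith)
  have h0 : (0 : ℝ) ≤ 1 / (2 * ss n) := by positivity
  refine le_trans (pow_le_of_le_one h0 (by linarith) ?_) h1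
  rw [card_Lt]
  have := pp_pos n
  have h3 : 0 < mm n := (mm_odd n).pos
  positivity

/-- enumeration of the auxiliary bits -/
def idx (n : ℕ) : (Fin (jj n) → ZMod 2) ≃ Fin (2 ^ jj n) :=
  Fintype.equivFinOfCardEq (by simp [ZMod.card])

/-- the region under the graph of the weight -/
def AA (n : ℕ) : Set (F n) :=
  {x | x (Sum.inr none) = 0 ∧
    (idx n (fun t => x (Sum.inr (some t))) : ℕ) < NN n (fun l => x (Sum.inl l))}

/-- assemble light and heavy parts -/
def mkF (n : ℕ) (l : Lt n → ZMod 2) (t : Hv n → ZMod 2) : F n := Sum.elim l t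

lemma sum_F' (n : ℕ) (g : F n → ℝ) :
    ∑ x, g x = ∑ l : Lt n → ZMod 2, ∑ t : Hv n → ZMod 2, g (mkF n l t) := sum_F n g

lemma Sc_mkF (n : ℕ) (l : Lt n → ZMod 2) (t : Hv n → ZMod 2) :
    Sc n (mkF n l t) = Sc n (lam n l) := rfl

lemma mem_AA (n : ℕ) (l : Lt n → ZMod 2) (t : Hv n → ZMod 2) :
    mkF n l t ∈ AA n ↔ t none = 0 ∧ (idx n (fun i => t (some i)) : ℕ) < NN n l := Iff.rfl

lemma sum_Hv (n : ℕ) (g : ZMod 2 → Fin (2 ^ jj n) → ℝ) :
    ∑ t : Hv n → ZMod 2, g (t none) (idx n (fun i => t (some i))) = ∑ k, g 0 k + ∑ k, g 1 k := by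
  rw [← sum_zmod2 (fun a => ∑ k, g a k), ← Fintype.sum_prod_type']
  exact Equiv.sum_comp ((Equiv.piOptionEquivProd (β := fun _ : Hv n => ZMod 2)).trans
    (Equiv.prodCongr (Equiv.refl _) (idx n))) (fun p => g p.1 p.2)

open Classical in
lemma sum_AA (n : ℕ) (l : Lt n → ZMod 2) :
    ∑ t : Hv n → ZMod 2, (if mkF n l t ∈ AA n then (1 : ℝ) else 0) = NN n l := by
  have := sum_Hv n (fun a k => if a = 0 ∧ (k : ℕ) < NN n l then (1 : ℝ) else 0)
  simp only [true_and, one_ne_zero, false_and, if_false, Finset.sum_const_zero, add_zero] at this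
  rw [count_lt _ _ (NN_le n l)] at this
  rw [← this]
  refine Finset.sum_congr rfl fun t _ => ?_
  congr 1

open Classical in
lemma sum_AA' (n : ℕ) (l l' : Lt n → ZMod 2) :
    ∑ t : Hv n → ZMod 2, (if mkF n l t ∈ AA n ∧ mkF n l' t ∉ AA n
      then (1 : ℝ) else 0) = max ((NN n l : ℝ) - NN n l') 0 := by
  have := sum_Hv n
    (fun a k => if a = 0 ∧ ((k : ℕ) < NN n l ∧ ¬ (k : ℕ) < NN n l') then (1 : ℝ) else 0)
  simp only [true_and, one_ne_zero, false_and, if_false, Finset.sum_const_zero, add_zero] at this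
  rw [count_between _ _ _ (NN_le n l)] at this
  rw [← this]
  refine Finset.sum_congr rfl fun t _ => ?_
  congr 1
  apply propext
  simp only [mem_AA]
  tauto

open Classical in
/-- uniform weights on the region -/
def oq (n : ℕ) (x : F n) : ℝ := if x ∈ AA n then cc n else 0

lemma oq_nonneg (n : ℕ) (x : F n) : 0 ≤ oq n x := by
  unfold oq; split_ifs
  · exact (cc_pos n).le
  · exact le_rfl

lemma sum_oq (n : ℕ) (l : Lt n → ZMod 2) :
    ∑ t : Hv n → ZMod 2, oq n (mkF n l t) = pw (fun _ => 1 / ss n) l := by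
  rw [← NN_cc, ← sum_AA, Finset.sum_mul]
  refine Finset.sum_congr rfl fun t _ => ?_
  unfold oq
  split_ifs <;> simp

/-- uniform measure on the region -/
def Q2 (n : ℕ) : Measure (F n) := wm (oq n)

instance (n : ℕ) : IsProbabilityMeasure (Q2 n) :=
  wm_prob _ (oq_nonneg n) (by rw [sum_F']; simp_rw [sum_oq]; exact sum_pw _)

lemma Q2_E0 : ∀ᵐ x ∂Measure.infinitePi Q2, x ∈ E0 := by
  refine ae_E0 Q2 fun n => ?_
  rw [Q2, wm_lintegral_ofReal _ (oq_nonneg n) _ (Sc_nonneg n)]
  refine ENNReal.ofReal_le_ofReal (le_trans (le_of_eq ?_) (varL n))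
  rw [sum_F']
  refine Finset.sum_congr rfl fun l _ => ?_
  simp_rw [Sc_mkF, ← Finset.sum_mul, sum_oq]

lemma Q2_noAtoms : NullSingletonClass (Measure.infinitePi Q2) := by
  refine noAtoms_infinitePi Q2 (ENNReal.ofReal (1 / 2))
    (by rw [ENNReal.ofReal_lt_one]; norm_num) fun n y => ?_
  rw [Q2, wm_singleton]
  refine ENNReal.ofReal_le_ofReal ?_
  unfold oq
  split_ifs
  · exact cc_le n
  · norm_num

lemma Q2_compl (n : ℕ) : Q2 n (AA n)ᶜ = 0 := by
  rw [Q2, wm_apply]
  refine Finset.sum_eq_zero fun x _ => ?_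
  by_cases hx : x ∈ AA n
  · exact indicator_of_notMem (by simpa using hx) _
  · rw [indicator_of_mem hx]; simp [oq, hx]

lemma Q2_ae : ∀ᵐ x ∂Measure.infinitePi Q2, x ∈ univ.pi AA := by
  simp only [mem_univ_pi]
  refine ae_all_iff.2 fun n => ?_
  have := (measurePreserving_eval_infinitePi Q2 n).quasiMeasurePreserving.preimage_null
    (Q2_compl n)
  exact this

lemma Q2_shift (n : ℕ) (h : F n) (t : Set (F n)) :
    Q2 n ((· + h) ⁻¹' t ∩ (AA n ∩ (· + h) ⁻¹' AA n)) = Q2 n (t ∩ (AA n ∩ (· + h) ⁻¹' AA n)) := by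
  rw [Q2, wm_apply, wm_apply, ← Equiv.sum_comp (Equiv.addRight h)
    (fun x => (t ∩ (AA n ∩ (· + h) ⁻¹' AA n)).indicator (fun x => ENNReal.ofReal (oq n x)) x)]
  refine Finset.sum_congr rfl fun x _ => ?_
  have e : x + h + h = x := by rw [add_assoc, F_add_self, add_zero]
  by_cases hx : x ∈ (· + h) ⁻¹' t ∩ (AA n ∩ (· + h) ⁻¹' AA n)
  · have h1 : x ∈ AA n := hx.2.1
    have h2 : x + h ∈ AA n := hx.2.2
    rw [indicator_of_mem hx, Equiv.coe_addRight,
      indicator_of_mem (show x + h ∈ t ∩ (AA n ∩ (· + h) ⁻¹' AA n) from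
        ⟨hx.1, h2, by rw [mem_preimage, e]; exact h1⟩)]
    simp [oq, h1, h2]
  · rw [indicator_of_notMem hx, Equiv.coe_addRight, indicator_of_notMem]
    intro h'
    exact hx ⟨h'.1, by have := h'.2.2; rwa [mem_preimage, e] at this, h'.2.1⟩

lemma Q2_PI (h : EE) (S : Set EE) (hS : MeasurableSet S) (h1 : S ⊆ univ.pi AA)
    (h2 : (· + h) ⁻¹' S ⊆ univ.pi AA) :
    Measure.infinitePi Q2 ((· + h) ⁻¹' S) = Measure.infinitePi Q2 S := by
  have := pseudo_invariant Q2 h (fun n => AA n ∩ (· + h n) ⁻¹' AA n)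
    (fun n => AA n ∩ (· + h n) ⁻¹' AA n) (fun n t => Q2_shift n (h n) t) S hS
  rwa [inter_eq_self_of_subset_left, inter_eq_self_of_subset_left] at this
  · intro y hy n _
    refine ⟨h1 hy n trivial, h2 (a := y + h) ?_ n trivial⟩
    have e : y + h + h = y := by
      funext m
      rw [Pi.add_apply, Pi.add_apply, add_assoc, F_add_self, add_zero]
    rw [mem_preimage, e]
    exact hy
  · intro x hx n _
    exact ⟨h2 hx n trivial, h1 hx n trivial⟩

lemma Q2_tv (n : ℕ) (g : F n) : Q2 n {y | y + g ∉ AA n} ≤ ENNReal.ofReal (8 * ‖g‖) := by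
  classical
  by_cases hg : ∀ t, g (Sum.inr t) = 0
  · have e : Q2 n {y | y + g ∉ AA n} =
        ENNReal.ofReal (∑ y, if y ∈ AA n ∧ y + g ∉ AA n then cc n else 0) := by
      rw [Q2, wm_apply, ENNReal.ofReal_sum_of_nonneg fun y _ => by
        split_ifs
        · exact (cc_pos n).le
        · exact le_rfl]
      refine Finset.sum_congr rfl fun y _ => ?_
      by_cases h1 : y ∈ AA n <;> by_cases h2 : y + g ∈ AA n <;> simp [h1, h2, oq]
    rw [e]
    refine ENNReal.ofReal_le_ofReal ?_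
    rw [sum_F']
    have e2 : ∀ l : Lt n → ZMod 2, ∑ t : Hv n → ZMod 2,
        (if mkF n l t ∈ AA n ∧ mkF n l t + g ∉ AA n then cc n
          else 0) = max (pw (fun _ => 1 / ss n) l -
            pw (fun _ => 1 / ss n) (l + fun i => g (Sum.inl i))) 0 := by
      intro l
      rw [← NN_cc, ← NN_cc, ← sub_mul, ← zero_mul (cc n), ← max_mul_of_nonneg _ _ (cc_pos n).le,
        ← sum_AA', Finset.sum_mul]
      refine Finset.sum_congr rfl fun t _ => ?_
      have : mkF n l t + g = mkF n (l + fun i => g (Sum.inl i)) t :=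
        F_ext fun i => by rcases i with i | i <;> simp [hg, mkF]
      rw [this]
      split_ifs <;> simp
    refine le_trans (le_of_eq (Finset.sum_congr rfl fun l _ => e2 l)) ?_
    refine (tv_le (fun _ => inv_ss_nonneg n) (fun _ => inv_ss_le n) _).trans ?_
    rw [F_norm, qq_eq, ← Finset.mul_sum]
    simp [hg, ww]
  · push Not at hg
    obtain ⟨t, ht⟩ := hg
    have h1 : 1 ≤ ‖g‖ := by
      rw [F_norm]
      apply Real.le_sqrt_of_sq_le
      have := Finset.single_le_sum (f := fun i => Wt n i * ind (g i))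
        (fun i _ => mul_nonneg (Wt_pos n i).le (ind_nonneg _)) (Finset.mem_univ (Sum.inr t))
      refine le_trans (le_of_eq ?_) this
      simp [Wt, ind, ht]
    refine prob_le_one.trans ?_
    rw [ENNReal.one_le_ofReal]
    linarith

lemma Q2_BC (h : HH) : ∀ᵐ x ∂Measure.infinitePi Q2, ∀ᶠ n in atTop, (x + jH h) n ∈ AA n := by
  have h1 : ∑' n, Measure.infinitePi Q2 {x : EE | x n + jH h n ∉ AA n} ≠ ∞ := by
    refine ne_top_of_le_ne_top (b := ∑' n, ENNReal.ofReal (8 * ‖jH h n‖))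
      ((HH_summable h).mul_left 8).tsum_ofReal_ne_top (ENNReal.tsum_le_tsum fun n => ?_)
    refine le_trans (le_of_eq ?_) (Q2_tv n (jH h n))
    exact (measurePreserving_eval_infinitePi Q2 n).measure_preimage
      (s := {y | y + jH h n ∉ AA n}) MeasurableSet.of_discrete.nullMeasurableSet
  filter_upwards [ae_eventually_notMem h1] with x hx
  filter_upwards [hx] with n hn
  simpa using hn

theorem exists_nu : ∃ ν : Measure EE, SigmaFinite ν ∧ NullSingletonClass ν ∧
    (∀ h, ν.map (· + jH h) = ν) ∧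
    (∀ T, MeasurableSet T → (∀ h y, y + jH h ∈ T ↔ y ∈ T) → ν T = 0 ∨ ν Tᶜ = 0) ∧
    ν E0 ≠ 0 ∧ ν {x | ∀ᶠ n in atTop, x n ∈ AA n}ᶜ = 0 := by
  obtain ⟨γ, hγ⟩ := countable_FS.exists_eq_range ⟨0, FS.zero⟩
  have hγ1 : ∀ k, FS (γ k) := fun k => by
    have : γ k ∈ {x : EE | FS x} := hγ ▸ mem_range_self k
    exact this
  have hγ2 : ∀ x, FS x → ∃ k, γ k = x := fun x hx => by
    have : x ∈ range γ := hγ ▸ hx
    exact this
  have hAm : MeasurableSet (univ.pi AA) := .univ_pi fun _ => MeasurableSet.of_discrete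
  obtain ⟨a, ha⟩ := Q2_ae.exists
  have hU : (⋃ k, (· + γ k) ⁻¹' univ.pi AA) = {x | ∀ᶠ n in atTop, x n ∈ AA n} := by
    ext x
    simp only [mem_iUnion, mem_preimage, mem_univ_pi, mem_ofPred_eq, eventually_atTop]
    constructor
    · rintro ⟨k, hk⟩
      obtain ⟨N, hN⟩ := hγ1 k
      exact ⟨N, fun n hn => by simpa [hN n hn] using hk n⟩
    · rintro ⟨N, hN⟩
      obtain ⟨k, hk⟩ := hγ2 (fun n => if n < N then a n - x n else 0)
        ⟨N, fun n hn => by simp [not_lt.2 hn]⟩
      refine ⟨k, fun n => ?_⟩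
      rw [hk, Pi.add_apply]
      split_ifs with hn
      · simpa using ha n trivial
      · simpa using hN n (not_lt.1 hn)
  obtain ⟨ν, hσ, hA, hnull, hνU, hinv⟩ := exists_invariant_extension (Measure.infinitePi Q2)
    (univ.pi AA) hAm γ (hγ2 0 FS.zero) Q2_PI (by
      intro k x
      rw [hU]
      obtain ⟨N, hN⟩ := hγ1 k
      refine eventually_congr ?_
      filter_upwards [eventually_ge_atTop N] with n hn
      rw [Pi.add_apply, hN n hn, add_zero])
  rw [hU] at hνU hinv
  haveI := Q2_noAtoms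
  refine ⟨ν, hσ, ⟨fun x => hnull _ (measurableSet_singleton x) fun k => ?_⟩, fun h => ?_,
    fun T hT hTi => ?_, ?_, hνU⟩
  · simp
  · refine hinv _ (Q2_BC h) ?_
    rw [← map_neg]
    exact Q2_BC (-h)
  · have e : ∀ k, (· + -γ k) ⁻¹' T = T := fun k =>
      Set.ext fun y => hTi (mkH _ (hγ1 k).neg) y
    rcases ergodic_of_prod Q2 T hT hTi with h0 | h0
    · exact Or.inl (hnull T hT fun k => by rw [e, h0])
    · exact Or.inr (hnull _ hT.compl fun k => by rw [preimage_compl, e, h0])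
  · intro h0
    have h1 : ν (E0 ∩ univ.pi AA) = 0 := measure_mono_null inter_subset_left h0
    rw [hA _ (E0_meas.inter hAm) inter_subset_right] at h1
    have h2 : Measure.infinitePi Q2 (E0 ∩ univ.pi AA)ᶜ = 0 := Q2_E0.and Q2_ae
    have := measure_union_null h1 h2
    simp at this

theorem typeIIinf :
    ∃ (G : Type) (_ : Group G) (_ : TopologicalSpace G) (_ : IsTopologicalGroup G)
      (_ : PolishSpace G) (_ : MeasurableSpace G) (_ : BorelSpace G), IsLevyGroup G ∧
      ∃ (X : Type) (_ : MeasurableSpace X) (_ : StandardBorelSpace X) (_ : MulAction G X)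
        (μ : Measure X), IsErgodicSpatial G X μ ∧
        (∀ g : G, μ.map (fun x => g • x) = μ) ∧ μ Set.univ = ⊤ := by
  obtain ⟨ν, hσ, hna, hinv, herg, hE0, hU⟩ := exists_nu
  have hpre : ∀ h T, MeasurableSet T → ν ((· + jH h) ⁻¹' T) = ν T := fun h T hT => by
    conv_rhs => rw [← hinv h, Measure.map_apply (measurable_add_const _) hT]
  have hq : ∀ h T, MeasurableSet T → ν T = 0 → ν ((· + SS.j h) ⁻¹' T) = 0 := fun h T hT h0 =>
    (hpre h T hT).trans h0
  refine ⟨SS.Grp, inferInstance, inferInstance, inferInstance, inferInstance, inferInstance,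
    inferInstance, isLevy, SS.X, inferInstance, SS.hX.standardBorel, inferInstance,
    SS.res ν, ⟨SS.measurable_smul₂, SS.sigmaFinite_res _,
      res_singleton _, SS.res_quasi _ hq, SS.res_ergodic _ herg⟩, SS.res_invariant ν hinv, ?_⟩
  rw [SS.res_apply, image_univ, Subtype.range_coe]
  have hX : ν SS.X ≠ 0 := SS.pos_of_quasi ν hq E0 (fun y hy => E0_ex hy) hE0
  set Z : ℕ → Set EE := fun N => SS.X ∩ {x | ∀ n ≥ N, x n (Sum.inr none) = 0} with hZ
  have hZm : ∀ N, MeasurableSet (Z N) := fun N => by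
    refine SS.hX.inter ?_
    simp only [ofPred_forall]
    exact MeasurableSet.iInter fun n => MeasurableSet.iInter fun _ =>
      measurable_pi_apply n (MeasurableSet.of_discrete (s := {y : F n | y (Sum.inr none) = 0}))
  obtain ⟨N, hN⟩ : ∃ N, ν (Z N) ≠ 0 := by
    by_contra hc
    push Not at hc
    refine hX (measure_mono_null (t := {x | ∀ᶠ n in atTop, x n ∈ AA n}ᶜ ∪ ⋃ N, Z N)
      (fun x hx => ?_) (measure_union_null hU (measure_iUnion_null hc)))
    by_cases h : ∀ᶠ n in atTop, x n ∈ AA n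
    · obtain ⟨N, hN⟩ := eventually_atTop.1 h
      exact Or.inr (mem_iUnion.2 ⟨N, hx, fun n hn => (hN n hn).1⟩)
    · exact Or.inl h
  set Y : ℕ → Set EE := fun k => (· + Pi.single (N + k) (eb (N + k))) ⁻¹' Z N with hY
  have hYX : ⋃ k, Y k ⊆ SS.X := by
    refine iUnion_subset fun k x hx => ?_
    have := X_flip hx.1 (N + k)
    rwa [add_assoc, ← Pi.single_add, F_add_self, Pi.single_zero, add_zero] at this
  have hYd : Pairwise (Function.onFun Disjoint Y) := by
    intro k k' hk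
    refine disjoint_left.2 fun x hx hx' => ?_
    have h1 := hx.2 (N + k) (Nat.le_add_right _ _)
    have h2 := hx'.2 (N + k) (Nat.le_add_right _ _)
    simp only [Pi.add_apply, Pi.single_eq_same, F_add, eb_none] at h1
    simp only [Pi.add_apply, Pi.single_eq_of_ne (by omega : N + k ≠ N + k'), add_zero] at h2
    rw [h2] at h1
    exact absurd h1 (by decide)
  refine top_unique (le_trans (le_of_eq ?_) (measure_mono hYX))
  rw [measure_iUnion hYd fun k => measurable_add_const _ (hZm N)]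
  have : ∀ k, ν (Y k) = ν (Z N) := fun k => hpre (mkH _ (FS.single (N + k) (eb (N + k)))) _ (hZm N)
  simp_rw [this]
  exact (ENNReal.tsum_const_eq_top_of_ne_zero hN).symm

end

end Pool.Agent.MP_9152e2_an
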