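import Mathlib
import Pool.Agent.MP_9152e2_an.Defs
import Pool.Agent.MP_9152e2_an.Prod

section

/-! Finite computations on the discrete cube. -/

set_option autoImplicit false

open Finset

namespace Pool.Agent.MP_9152e2_an

noncomputable section

lemma sum_zmod2 (f : ZMod 2 → ℝ) : ∑ a, f a = f 0 + f 1 := Fin.sum_univ_two f

lemma zmod2_cases (a : ZMod 2) : a = 0 ∨ a = 1 := by revert a; decide

lemma zmod2_add_self (a : ZMod 2) : a + a = 0 := by revert a; decide

/-- indicator of a nonzero bit -/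
def ind (a : ZMod 2) : ℝ := if a = 0 then 0 else 1

@[simp] lemma ind_zero : ind 0 = 0 := by simp [ind]
@[simp] lemma ind_one : ind 1 = 1 := by simp [ind]
lemma ind_nonneg (a : ZMod 2) : 0 ≤ ind a := by unfold ind; split_ifs <;> norm_num
lemma ind_le_one (a : ZMod 2) : ind a ≤ 1 := by unfold ind; split_ifs <;> norm_num
lemma one_add_one_zmod2 : (1 : ZMod 2) + 1 = 0 := by decide
lemma ind_add_le (a b : ZMod 2) : ind (a + b) ≤ ind a + ind b := by
  rcases zmod2_cases a with rfl | rfl <;> rcases zmod2_cases b with rfl | rfl <;>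
    simp [one_add_one_zmod2]
lemma abs_ind_add_sub (a b : ZMod 2) : |ind (a + b) - ind a| ≤ ind b := by
  rcases zmod2_cases a with rfl | rfl <;> rcases zmod2_cases b with rfl | rfl <;>
    simp [one_add_one_zmod2]
lemma ind_add_one (a : ZMod 2) : ind (a + 1) = 1 - ind a := by
  rcases zmod2_cases a with rfl | rfl <;> simp [one_add_one_zmod2]
lemma ind_neg (a : ZMod 2) : ind (-a) = ind a := by simp [ind]
lemma ind_eq_zero {a : ZMod 2} (h : ind a = 0) : a = 0 := by
  rcases zmod2_cases a with rfl | rfl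
  · rfl
  · simp at h

/-! ### Poincare inequality and concentration -/

lemma poincare_fin (n : ℕ) : ∀ (f : (Fin n → ZMod 2) → ℝ),
    (∀ x i, |f (x + Pi.single i 1) - f x| ≤ 1) →
    2 ^ n * ∑ x, f x ^ 2 - (∑ x, f x) ^ 2 ≤ n * (2 ^ n) ^ 2 / 4 := by
  induction n with
  | zero => intro f _; simp
  | succ n ih =>
    intro f hf
    have hsum : ∀ F : (Fin (n + 1) → ZMod 2) → ℝ,
        ∑ x, F x = ∑ y : Fin n → ZMod 2, (F (Fin.cons 0 y) + F (Fin.cons 1 y)) := by
      intro F
      rw [← (Fin.consEquiv (fun _ : Fin (n + 1) => ZMod 2)).sum_comp, Fintype.sum_prod_type,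
        sum_zmod2, sum_add_distrib]
      rfl
    set g : (Fin n → ZMod 2) → ℝ := fun y => (f (Fin.cons 0 y) + f (Fin.cons 1 y)) / 2 with hg
    have hc : ∀ (a : ZMod 2) (y : Fin n → ZMod 2) (i : Fin n),
        (Fin.cons a (y + Pi.single i 1) : Fin (n + 1) → ZMod 2) =
          (Fin.cons a y : Fin (n + 1) → ZMod 2) + Pi.single i.succ 1 := by
      intro a y i
      funext j
      refine Fin.cases ?_ (fun j => ?_) j
      · simp [(Fin.succ_ne_zero i).symm]
      · simp [Pi.single_apply]
    have hgl : ∀ y i, |g (y + Pi.single i 1) - g y| ≤ 1 := by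
      intro y i
      have h0 := hf (Fin.cons 0 y) i.succ
      have h1 := hf (Fin.cons 1 y) i.succ
      rw [← hc] at h0 h1
      rw [abs_le] at h0 h1 ⊢
      simp only [hg]
      constructor <;> linarith [h0.1, h0.2, h1.1, h1.2]
    have hd : ∀ y : Fin n → ZMod 2, |f (Fin.cons 1 y) - f (Fin.cons 0 y)| ≤ 1 := by
      intro y
      have := hf (Fin.cons 0 y) 0
      have e : (Fin.cons 0 y : Fin (n + 1) → ZMod 2) + Pi.single 0 1 = Fin.cons 1 y := by
        funext j
        refine Fin.cases ?_ (fun j => ?_) j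
        · simp
        · simp
      rwa [e] at this
    have h1 : ∑ x, f x = 2 * ∑ y, g y := by
      rw [hsum, mul_sum]
      refine sum_congr rfl fun y _ => ?_
      simp only [hg]; ring
    have h2 : ∑ x, f x ^ 2 ≤ 2 * ∑ y, g y ^ 2 + 2 ^ n / 2 := by
      rw [hsum, mul_sum]
      have : (2 : ℝ) ^ n / 2 = ∑ _y : Fin n → ZMod 2, (1 / 2 : ℝ) := by
        simp [ZMod.card]; ring
      rw [this, ← sum_add_distrib]
      refine sum_le_sum fun y _ => ?_
      have := hd y
      have h3 : (f (Fin.cons 1 y) - f (Fin.cons 0 y)) ^ 2 ≤ 1 := by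
        rw [← sq_abs]; nlinarith [abs_nonneg (f (Fin.cons 1 y) - f (Fin.cons 0 y))]
      simp only [hg]; nlinarith
    have h4 := ih g hgl
    have h5 : (0 : ℝ) < 2 ^ n := by positivity
    rw [h1, pow_succ]
    push_cast
    nlinarith

lemma poincare {ι : Type} [Fintype ι] [DecidableEq ι] (f : (ι → ZMod 2) → ℝ)
    (hf : ∀ x i, |f (x + Pi.single i 1) - f x| ≤ 1) :
    2 ^ Fintype.card ι * ∑ x, f x ^ 2 - (∑ x, f x) ^ 2 ≤
      Fintype.card ι * (2 ^ Fintype.card ι) ^ 2 / 4 := by
  let e := Fintype.equivFin ι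
  let E : (Fin (Fintype.card ι) → ZMod 2) ≃ (ι → ZMod 2) := Equiv.arrowCongr e.symm (Equiv.refl _)
  have := poincare_fin (Fintype.card ι) (fun x => f (E x)) (by
    intro x i
    have h := hf (E x) (e.symm i)
    have : E (x + Pi.single i 1) = E x + Pi.single (e.symm i) 1 := by
      funext j
      simp [E, Pi.single_apply, Equiv.eq_symm_apply]
    rwa [this])
  rwa [E.sum_comp (fun x => f x ^ 2), E.sum_comp f] at this

lemma cube_conc {ι : Type} [Fintype ι] [DecidableEq ι] (A B : Finset (ι → ZMod 2)) (r : ℝ)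
    (hr : 0 ≤ r) (h : ∀ a ∈ A, ∀ b ∈ B, r ≤ hammingDist a b) :
    (A.card : ℝ) * B.card * r ^ 2 ≤ Fintype.card ι * (2 ^ Fintype.card ι) ^ 2 / 2 := by
  rcases A.eq_empty_or_nonempty with rfl | hA
  · simp; positivity
  set f : (ι → ZMod 2) → ℝ := fun x => A.inf' hA (fun a => (hammingDist a x : ℝ)) with hf
  have hstep : ∀ x y : ι → ZMod 2, hammingDist x y ≤ 1 → f y ≤ f x + 1 := by
    intro x y hxy
    obtain ⟨a, ha, he⟩ := exists_mem_eq_inf' hA (fun a => (hammingDist a x : ℝ))
    have h1 : f y ≤ hammingDist a y := inf'_le _ ha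
    have h2 : hammingDist a y ≤ hammingDist a x + hammingDist x y := hammingDist_triangle a x y
    have h3 : (hammingDist a y : ℝ) ≤ hammingDist a x + 1 := by
      exact_mod_cast h2.trans (Nat.add_le_add_left hxy _)
    have h4 : f x = hammingDist a x := he
    linarith
  have hham : ∀ (x : ι → ZMod 2) i, hammingDist x (x + Pi.single i 1) ≤ 1 := by
    intro x i
    unfold hammingDist
    refine (card_le_card (t := {i}) ?_).trans (by simp)
    intro j hj
    simp only [mem_filter, mem_univ, true_and, Pi.add_apply] at hj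
    by_contra hji
    simp only [mem_singleton] at hji
    simp [hji] at hj
  have hL : ∀ x i, |f (x + Pi.single i 1) - f x| ≤ 1 := by
    intro x i
    have h1 := hstep x _ (hham x i)
    have h2 := hstep (x + Pi.single i 1) x (by rw [hammingDist_comm]; exact hham x i)
    rw [abs_le]; constructor <;> linarith
  have hP := poincare f hL
  have hA0 : ∀ a ∈ A, f a = 0 := by
    intro a ha
    apply le_antisymm
    · have : f a ≤ hammingDist a a := inf'_le _ ha
      simpa using this
    · exact le_inf' _ _ fun b _ => Nat.cast_nonneg _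
  have hB : ∀ b ∈ B, r ≤ f b := fun b hb => le_inf' _ _ fun a ha => h a ha b hb
  have hdouble : ∑ x, ∑ y, (f x - f y) ^ 2 =
      2 * (2 ^ Fintype.card ι * ∑ x, f x ^ 2 - (∑ x, f x) ^ 2) := by
    have hc : (Fintype.card (ι → ZMod 2) : ℝ) = 2 ^ Fintype.card ι := by
      simp [ZMod.card]
    simp only [sub_sq, sum_add_distrib, sum_sub_distrib, sum_const, card_univ, nsmul_eq_mul,
      ← mul_sum, ← sum_mul, hc]
    ring
  have hlow : (A.card : ℝ) * B.card * r ^ 2 ≤ ∑ x, ∑ y, (f x - f y) ^ 2 := by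
    calc (A.card : ℝ) * B.card * r ^ 2 = ∑ _x ∈ A, ∑ _y ∈ B, r ^ 2 := by
          simp [mul_assoc]
      _ ≤ ∑ x ∈ A, ∑ y ∈ B, (f x - f y) ^ 2 := by
          refine sum_le_sum fun a ha => sum_le_sum fun b hb => ?_
          rw [hA0 a ha, zero_sub, neg_sq]
          exact pow_le_pow_left₀ hr (hB b hb) 2
      _ ≤ ∑ x ∈ A, ∑ y, (f x - f y) ^ 2 :=
          sum_le_sum fun a _ => sum_le_sum_of_subset_of_nonneg (subset_univ _)
            fun _ _ _ => sq_nonneg _
      _ ≤ ∑ x, ∑ y, (f x - f y) ^ 2 :=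
          sum_le_sum_of_subset_of_nonneg (subset_univ _)
            fun _ _ _ => sum_nonneg fun _ _ => sq_nonneg _
  linarith

/-! ### Biased product weights -/

/-- weight of one biased bit -/
def bw (β : ℝ) (a : ZMod 2) : ℝ := if a = 0 then 1 / 2 + β else 1 / 2 - β

@[simp] lemma bw_zero (β : ℝ) : bw β 0 = 1 / 2 + β := by simp [bw]
@[simp] lemma bw_one (β : ℝ) : bw β 1 = 1 / 2 - β := by simp [bw]

lemma bw_pos {β : ℝ} (h0 : 0 ≤ β) (h1 : β ≤ 1 / 3) (a : ZMod 2) : 0 < bw β a := by
  unfold bw; split_ifs <;> linarith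

lemma bw_le_one {β : ℝ} (h0 : 0 ≤ β) (h1 : β ≤ 1 / 3) (a : ZMod 2) : bw β a ≤ 1 := by
  unfold bw; split_ifs <;> linarith

lemma sum_bw (β : ℝ) : ∑ a, bw β a = 1 := by rw [sum_zmod2]; simp; norm_num

variable {ι : Type} [Fintype ι] [DecidableEq ι]

/-- product weight -/
def pw (β : ι → ℝ) (x : ι → ZMod 2) : ℝ := ∏ i, bw (β i) (x i)

lemma sum_prod_cube (g : ι → ZMod 2 → ℝ) :
    ∑ x : ι → ZMod 2, ∏ i, g i (x i) = ∏ i, (g i 0 + g i 1) := by
  have := prod_univ_sum (fun _ : ι => (univ : Finset (ZMod 2))) g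
  rw [Fintype.piFinset_univ] at this
  rw [← this]
  exact prod_congr rfl fun i _ => sum_zmod2 _

lemma sum_pw (β : ι → ℝ) : ∑ x, pw β x = 1 := by
  unfold pw
  rw [sum_prod_cube (fun i a => bw (β i) a)]
  exact prod_eq_one fun i _ => by simp; norm_num

omit [DecidableEq ι] in
lemma pw_pos {β : ι → ℝ} (h0 : ∀ i, 0 ≤ β i) (h1 : ∀ i, β i ≤ 1 / 3) (x : ι → ZMod 2) :
    0 < pw β x := prod_pos fun i _ => bw_pos (h0 i) (h1 i) _

lemma chi_one {β : ℝ} (h0 : 0 ≤ β) (h1 : β ≤ 1 / 3) (c : ZMod 2) :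
    bw β (0 + c) ^ 2 / bw β 0 + bw β (1 + c) ^ 2 / bw β 1 ≤ Real.exp (29 * (β ^ 2 * ind c)) := by
  have hp : 0 < 1 / 2 + β := by linarith
  have hq : 0 < 1 / 2 - β := by linarith
  rcases zmod2_cases c with rfl | rfl
  · simp only [add_zero, bw_zero, bw_one, ind_zero, mul_zero, Real.exp_zero]
    rw [sq, sq, mul_div_assoc, mul_div_assoc, div_self hp.ne', div_self hq.ne']
    linarith
  · simp only [zero_add, one_add_one_zmod2, bw_zero, bw_one, ind_one, mul_one]
    refine le_trans ?_ (Real.add_one_le_exp _)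
    rw [div_add_div _ _ hp.ne' hq.ne', div_le_iff₀ (mul_pos hp hq)]
    have hb : β ^ 2 ≤ 1 / 9 := by nlinarith
    nlinarith [sq_nonneg β, mul_nonneg (sq_nonneg β) (sub_nonneg.2 hb)]

lemma chi_le {β : ι → ℝ} (h0 : ∀ i, 0 ≤ β i) (h1 : ∀ i, β i ≤ 1 / 3) (h : ι → ZMod 2) :
    ∑ x, pw β (x + h) ^ 2 / pw β x ≤ Real.exp (29 * ∑ i, β i ^ 2 * ind (h i)) := by
  have : ∀ x : ι → ZMod 2, pw β (x + h) ^ 2 / pw β x =
      ∏ i, (bw (β i) (x i + h i) ^ 2 / bw (β i) (x i)) := by
    intro x
    rw [prod_div_distrib, prod_pow]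
    rfl
  simp_rw [this]
  rw [sum_prod_cube (fun i a => bw (β i) (a + h i) ^ 2 / bw (β i) a), mul_sum, Real.exp_sum]
  refine prod_le_prod (fun i _ => ?_) fun i _ => chi_one (h0 i) (h1 i) (h i)
  have := bw_pos (h0 i) (h1 i)
  exact add_nonneg (div_nonneg (sq_nonneg _) (this _).le) (div_nonneg (sq_nonneg _) (this _).le)

lemma var_le {β : ι → ℝ} (a : ι → ℝ) :
    ∑ x, pw β x * (∑ i, a i * (ind (x i) - (1 / 2 - β i))) ^ 2 ≤ ∑ i, a i ^ 2 / 4 := by
  have key : ∀ i j, ∑ x, pw β x * ((ind (x i) - (1 / 2 - β i)) * (ind (x j) - (1 / 2 - β j))) =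
      if i = j then 1 / 4 - β i ^ 2 else 0 := by
    intro i j
    have e : ∀ x : ι → ZMod 2,
        pw β x * ((ind (x i) - (1 / 2 - β i)) * (ind (x j) - (1 / 2 - β j))) =
        ∏ k, (bw (β k) (x k) * ((if k = i then ind (x k) - (1 / 2 - β k) else 1) *
          (if k = j then ind (x k) - (1 / 2 - β k) else 1))) := by
      intro x
      rw [prod_mul_distrib, prod_mul_distrib, prod_ite_eq' univ i, prod_ite_eq' univ j]
      simp [pw]
    simp_rw [e]
    rw [sum_prod_cube (fun k c => bw (β k) c * ((if k = i then ind c - (1 / 2 - β k) else 1) *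
          (if k = j then ind c - (1 / 2 - β k) else 1)))]
    split_ifs with hij
    · subst hij
      rw [prod_eq_single i]
      · simp; ring
      · intro k _ hk
        simp [hk]; norm_num
      · simp
    · refine prod_eq_zero (mem_univ i) ?_
      simp [hij]; ring
  have e2 : ∀ x : ι → ZMod 2, pw β x * (∑ i, a i * (ind (x i) - (1 / 2 - β i))) ^ 2 =
      ∑ i, ∑ j, a i * a j *
        (pw β x * ((ind (x i) - (1 / 2 - β i)) * (ind (x j) - (1 / 2 - β j)))) := by
    intro x
    rw [sq, sum_mul_sum, mul_sum]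
    refine sum_congr rfl fun i _ => ?_
    rw [mul_sum]
    refine sum_congr rfl fun j _ => ?_
    ring
  simp_rw [e2]
  rw [sum_comm]
  refine sum_le_sum fun i _ => ?_
  rw [sum_comm]
  simp_rw [← mul_sum, key]
  rw [sum_eq_single i]
  · simp only [if_true]
    nlinarith [sq_nonneg (a i), sq_nonneg (β i), mul_nonneg (sq_nonneg (a i)) (sq_nonneg (β i))]
  · intro j _ hj
    simp [hj.symm]
  · simp

lemma tv_le {β : ι → ℝ} (h0 : ∀ i, 0 ≤ β i) (h1 : ∀ i, β i ≤ 1 / 3) (h : ι → ZMod 2) :
    ∑ x, max (pw β x - pw β (x + h)) 0 ≤ 8 * Real.sqrt (∑ i, β i ^ 2 * ind (h i)) := by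
  set q := ∑ i, β i ^ 2 * ind (h i) with hq
  have hq0 : 0 ≤ q := sum_nonneg fun i _ => mul_nonneg (sq_nonneg _) (ind_nonneg _)
  have hpos := pw_pos h0 h1
  by_cases hs : q ≤ 1 / 29
  · have hsum : ∑ x, pw β (x + h) = 1 := by
      rw [← sum_pw β]
      exact Equiv.sum_comp (Equiv.addRight h) (pw β)
    have hc := chi_le h0 h1 h
    rw [← hq] at hc
    have he : Real.exp (29 * q) - 1 ≤ 58 * q := by
      have := Real.abs_exp_sub_one_le (x := 29 * q) (by rw [abs_of_nonneg (by positivity)]; linarith)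
      rw [abs_of_nonneg (a := 29 * q) (by positivity)] at this
      linarith [le_abs_self (Real.exp (29 * q) - 1)]
    have hT := sq_sum_div_le_sum_sq_div univ (fun x => max (pw β x - pw β (x + h)) 0)
      (g := pw β) (fun x _ => hpos x)
    rw [sum_pw, div_one] at hT
    have hB : ∑ x, (max (pw β x - pw β (x + h)) 0) ^ 2 / pw β x ≤
        ∑ x, (pw β (x + h) ^ 2 / pw β x - 2 * pw β (x + h) + pw β x) := by
      refine sum_le_sum fun x _ => ?_
      have hx := hpos x
      have : pw β (x + h) ^ 2 / pw β x - 2 * pw β (x + h) + pw β x =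
          (pw β x - pw β (x + h)) ^ 2 / pw β x := by
        field_simp; ring
      rw [this]
      refine div_le_div_of_nonneg_right ?_ hx.le
      rcases le_total (pw β x - pw β (x + h)) 0 with hh | hh
      · rw [max_eq_right hh]; simp [sq_nonneg]
      · rw [max_eq_left hh]
    rw [sum_add_distrib, sum_sub_distrib, ← mul_sum, hsum, sum_pw] at hB
    have h64 : (∑ x, max (pw β x - pw β (x + h)) 0) ^ 2 ≤ (8 * Real.sqrt q) ^ 2 := by
      rw [mul_pow, Real.sq_sqrt hq0]; linarith
    exact (pow_le_pow_iff_left₀ (sum_nonneg fun x _ => le_max_right _ _) (by positivity)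
      two_ne_zero).1 h64
  · have h1' : ∑ x, max (pw β x - pw β (x + h)) 0 ≤ 1 := by
      rw [← sum_pw β]
      refine sum_le_sum fun x _ => max_le ?_ (hpos x).le
      linarith [hpos (x + h)]
    have h2 : 1 / 8 ≤ Real.sqrt q := by
      apply Real.le_sqrt_of_sq_le
      push Not at hs
      linarith
    linarith

end

end Pool.Agent.MP_9152e2_an

end

section

/-! The action of a quotient H / D on a Borel transversal for D. -/

set_option autoImplicit false
set_option linter.style.haveILetI false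
set_option linter.unusedSectionVars false

open MeasureTheory Set Filter Topology
open scoped ENNReal

namespace Pool.Agent.MP_9152e2_an

noncomputable section

/-- a group H acting on E by translations, a countable closed subgroup D and a transversal X -/
structure Setup (H E : Type) [NormedAddCommGroup H] [MeasurableSpace H] [AddCommGroup E]
    [MeasurableSpace E] where
  j : H →+ E
  D : AddSubgroup H
  X : Set E
  hj : Measurable j
  hD : (D : Set H).Countable
  hDc : IsClosed (D : Set H)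
  hX : MeasurableSet X
  ex : ∀ x ∈ X, ∀ h : H, ∃ d ∈ D, x + j (h + d) ∈ X
  uniq : ∀ x ∈ X, ∀ d ∈ D, x + j d ∈ X → d = 0

namespace Setup

variable {H E : Type} [NormedAddCommGroup H] [MeasurableSpace H] [AddCommGroup E]
  [MeasurableSpace E] (S : Setup H E)

/-- the action of H on the transversal -/
def act (h : H) (x : S.X) : S.X :=
  ⟨x + S.j (h + (S.ex x x.2 h).choose), (S.ex x x.2 h).choose_spec.2⟩

lemma act_spec (h : H) (x : S.X) : ∃ d ∈ S.D, (S.act h x : E) = x + S.j (h + d) :=
  ⟨_, (S.ex x x.2 h).choose_spec.1, rfl⟩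

lemma uniq' {y : E} {a b : H} (ha : y + S.j a ∈ S.X) (hb : y + S.j b ∈ S.X)
    (hab : b - a ∈ S.D) : a = b := by
  have := S.uniq _ ha _ hab (by rwa [add_assoc, ← map_add, add_sub_cancel])
  exact (sub_eq_zero.1 this).symm

lemma act_eq (h : H) (x : S.X) {g : H} (hg : g - h ∈ S.D) (hx : (x : E) + S.j g ∈ S.X) :
    (S.act h x : E) = x + S.j g := by
  obtain ⟨d, hd, e⟩ := S.act_spec h x
  have h1 : (x : E) + S.j (h + d) ∈ S.X := e ▸ (S.act h x).2
  rw [e, S.uniq' h1 hx (by rw [← sub_sub]; exact S.D.sub_mem hg hd)]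

lemma act_congr {h h' : H} (hh : h' - h ∈ S.D) (x : S.X) : S.act h x = S.act h' x := by
  obtain ⟨d, hd, e⟩ := S.act_spec h' x
  apply Subtype.ext
  rw [e]
  refine S.act_eq h x ?_ (e ▸ (S.act h' x).2)
  rw [add_sub_right_comm]
  exact S.D.add_mem hh hd

lemma act_zero (x : S.X) : S.act 0 x = x := by
  apply Subtype.ext
  rw [S.act_eq 0 x (g := 0) (by simp) (by simp)]
  simp

lemma act_add (h h' : H) (x : S.X) : S.act (h + h') x = S.act h (S.act h' x) := by
  obtain ⟨d, hd, e⟩ := S.act_spec h (S.act h' x)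
  obtain ⟨d', hd', e'⟩ := S.act_spec h' x
  apply Subtype.ext
  have e2 : (S.act h (S.act h' x) : E) = x + S.j (h' + d' + (h + d)) := by
    rw [e, e', add_assoc, ← map_add]
  rw [e2]
  refine S.act_eq _ x ?_ (e2 ▸ (S.act h (S.act h' x)).2)
  rw [show h' + d' + (h + d) - (h + h') = d' + d by abel]
  exact S.D.add_mem hd' hd

/-- the quotient group, written multiplicatively -/
def Grp : Type := Multiplicative (H ⧸ S.D)

instance : NormedCommGroup S.Grp :=
  haveI := S.hDc
  inferInstanceAs (NormedCommGroup (Multiplicative (H ⧸ S.D)))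

instance : MeasurableSpace S.Grp := borel _
instance : BorelSpace S.Grp := ⟨rfl⟩

instance [SecondCountableTopology H] : SecondCountableTopology S.Grp :=
  inferInstanceAs (SecondCountableTopology (H ⧸ S.D))

instance [CompleteSpace H] : CompleteSpace S.Grp :=
  haveI := S.hDc
  inferInstanceAs (CompleteSpace (H ⧸ S.D))

/-- the quotient map -/
def qk (h : H) : S.Grp := Multiplicative.ofAdd (QuotientAddGroup.mk h : H ⧸ S.D)

lemma mk_add (h h' : H) : S.qk (h + h') = S.qk h * S.qk h' := rfl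
lemma mk_zero : S.qk 0 = 1 := rfl
lemma mk_surj : Function.Surjective S.qk := fun g =>
  QuotientAddGroup.mk_surjective (Multiplicative.toAdd g)
lemma mk_cont : Continuous S.qk := QuotientAddGroup.continuous_mk
lemma mk_eq {h h' : H} : S.qk h = S.qk h' ↔ h' - h ∈ S.D := by
  rw [sub_eq_neg_add]
  exact QuotientAddGroup.eq
lemma dist_mk_le (h h' : H) : dist (S.qk h) (S.qk h') ≤ ‖h - h'‖ := by
  haveI := S.hDc
  change dist (QuotientAddGroup.mk h : H ⧸ S.D) (QuotientAddGroup.mk h') ≤ _
  rw [dist_eq_norm, ← QuotientAddGroup.mk_sub]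
  exact QuotientAddGroup.norm_mk_le_norm

instance : SMul S.Grp S.X := ⟨fun g x => S.act (S.mk_surj g).choose x⟩

lemma mk_smul (h : H) (x : S.X) : S.qk h • x = S.act h x :=
  S.act_congr (S.mk_eq.1 (S.mk_surj (S.qk h)).choose_spec) x

instance : MulAction S.Grp S.X where
  one_smul x := by rw [← S.mk_zero, mk_smul, act_zero]
  mul_smul g g' x := by
    obtain ⟨h, rfl⟩ := S.mk_surj g
    obtain ⟨h', rfl⟩ := S.mk_surj g'
    rw [← mk_add, mk_smul, mk_smul, mk_smul, act_add]

lemma emb : MeasurableEmbedding (Subtype.val : S.X → E) := MeasurableEmbedding.subtype_coe S.hX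

lemma image_act (h : H) (T : Set S.X) :
    Subtype.val '' (S.act h ⁻¹' T) =
      ⋃ d : S.D, S.X ∩ (· + S.j (h + d)) ⁻¹' (Subtype.val '' T) := by
  ext y
  simp only [mem_image, mem_preimage, mem_iUnion, mem_inter_iff]
  constructor
  · rintro ⟨x, hx, rfl⟩
    obtain ⟨d, hd, e⟩ := S.act_spec h x
    exact ⟨⟨d, hd⟩, x.2, _, hx, e⟩
  · rintro ⟨d, hy, z, hz, e⟩
    refine ⟨⟨y, hy⟩, ?_, rfl⟩
    have : S.act h ⟨y, hy⟩ = z := by
      apply Subtype.ext
      rw [e]
      exact S.act_eq h ⟨y, hy⟩ (by simp) (e ▸ z.2)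
    rwa [this]

variable [MeasurableAdd₂ E]

lemma measurable_act₂ [BorelSpace H] [SecondCountableTopology H] :
    Measurable (fun p : H × S.X => S.act p.1 p.2) := by
  intro T hT
  have : (fun p : H × S.X => S.act p.1 p.2) ⁻¹' T =
      ⋃ d : S.D, (fun p : H × S.X => (p.2 : E) + S.j (p.1 + d)) ⁻¹' (Subtype.val '' T) := by
    ext p
    have := Set.ext_iff.1 (S.image_act p.1 T) p.2
    simp only [mem_image, mem_preimage, mem_iUnion, mem_inter_iff, Subtype.val_inj,
      exists_eq_right, Subtype.coe_prop, true_and] at this ⊢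
    exact this
  rw [this]
  haveI : Countable S.D := S.hD
  refine MeasurableSet.iUnion fun d => ?_
  have hm : Measurable (fun p : H × S.X => (p.2 : E) + S.j (p.1 + d)) :=
    (measurable_subtype_coe.comp measurable_snd).add
      (S.hj.comp (measurable_fst.add_const _))
  exact hm (S.emb.measurableSet_image.2 hT)

lemma measurable_act (h : H) : Measurable (S.act h) := by
  intro T hT
  rw [← S.emb.measurableSet_image, image_act]
  haveI : Countable S.D := S.hD
  exact MeasurableSet.iUnion fun d =>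
    S.hX.inter (measurable_add_const _ (S.emb.measurableSet_image.2 hT))

lemma measurable_smul₂ [BorelSpace H] [SecondCountableTopology H] [CompleteSpace H]
    [StandardBorelSpace E] : Measurable (fun p : S.Grp × S.X => p.1 • p.2) := by
  haveI : StandardBorelSpace S.X := S.hX.standardBorel
  have hq : Measurable (Prod.map S.qk (id : S.X → S.X)) :=
    S.mk_cont.measurable.prodMap measurable_id
  rw [← hq.measurable_comp_iff_of_surjective (S.mk_surj.prodMap Function.surjective_id)]
  convert S.measurable_act₂ using 1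
  funext p
  exact S.mk_smul p.1 p.2

/-- the restricted measure -/
def res (ν : Measure E) : Measure S.X := ν.comap Subtype.val

omit [MeasurableAdd₂ E] in
lemma res_apply (ν : Measure E) (T : Set S.X) : S.res ν T = ν (Subtype.val '' T) :=
  S.emb.comap_apply ν T

omit [MeasurableAdd₂ E] in
lemma map_res (ν : Measure E) : (S.res ν).map Subtype.val = ν.restrict S.X := by
  rw [res, S.emb.map_comap, Subtype.range_coe]

omit [MeasurableAdd₂ E] in
lemma sigmaFinite_res (ν : Measure E) [SigmaFinite ν] : SigmaFinite (S.res ν) :=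
  SigmaFinite.of_map _ measurable_subtype_coe.aemeasurable (by rw [map_res]; infer_instance)

lemma res_quasi (ν : Measure E)
    (hν : ∀ h T, MeasurableSet T → ν T = 0 → ν ((· + S.j h) ⁻¹' T) = 0) (g : S.Grp) :
    (S.res ν).map (fun x => g • x) ≪ S.res ν ∧ S.res ν ≪ (S.res ν).map (fun x => g • x) := by
  haveI : Countable S.D := S.hD
  have key : ∀ h T, MeasurableSet T → S.res ν T = 0 → S.res ν (S.act h ⁻¹' T) = 0 := by
    intro h T hT h0
    rw [res_apply] at h0 ⊢
    rw [image_act]
    exact measure_iUnion_null fun d => measure_mono_null inter_subset_right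
      (hν _ _ (S.emb.measurableSet_image.2 hT) h0)
  obtain ⟨h, rfl⟩ := S.mk_surj g
  have e : (fun x => S.qk h • x) = S.act h := funext (S.mk_smul h)
  rw [e]
  constructor
  · refine Measure.AbsolutelyContinuous.mk fun T hT h0 => ?_
    rw [Measure.map_apply (S.measurable_act h) hT]
    exact key h T hT h0
  · refine Measure.AbsolutelyContinuous.mk fun T hT h0 => ?_
    rw [Measure.map_apply (S.measurable_act h) hT] at h0
    have := key (-h) _ (S.measurable_act h hT) h0
    convert this using 2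
    ext x
    rw [mem_preimage, mem_preimage, ← act_add, add_neg_cancel, act_zero]

lemma res_invariant (ν : Measure E) (hν : ∀ h, ν.map (· + S.j h) = ν) (g : S.Grp) :
    (S.res ν).map (fun x => g • x) = S.res ν := by
  haveI : Countable S.D := S.hD
  obtain ⟨h, rfl⟩ := S.mk_surj g
  have e : (fun x => S.qk h • x) = S.act h := funext (S.mk_smul h)
  rw [e]
  ext T hT
  have hT' := S.emb.measurableSet_image.2 hT
  rw [Measure.map_apply (S.measurable_act h) hT, res_apply, res_apply, image_act,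
    measure_iUnion _ fun d => S.hX.inter (measurable_add_const _ hT')]
  · have e2 : ∀ d : S.D, ν (S.X ∩ (· + S.j (h + d)) ⁻¹' (Subtype.val '' T)) =
        ν (Subtype.val '' T ∩ (· + S.j (-(h + d))) ⁻¹' S.X) := by
      intro d
      conv_rhs => rw [← hν (h + d),
        Measure.map_apply (measurable_add_const _) (hT'.inter (measurable_add_const _ S.hX))]
      congr 1
      ext y
      simp only [mem_inter_iff, mem_preimage, add_assoc, ← map_add, add_neg_cancel, map_zero,
        add_zero, and_comm]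
    simp_rw [e2]
    rw [← measure_iUnion _ fun d => hT'.inter (measurable_add_const _ S.hX), ← inter_iUnion,
      inter_eq_self_of_subset_left]
    · rintro _ ⟨x, -, rfl⟩
      obtain ⟨d, hd, hx⟩ := S.ex x x.2 (-h)
      refine mem_iUnion.2 ⟨⟨-d, S.D.neg_mem hd⟩, ?_⟩
      rw [mem_preimage, show -(h + -d) = -h + d by abel]
      exact hx
    · intro d d' hdd
      refine disjoint_left.2 fun y hy hy' => hdd ?_
      have := S.uniq' hy.2 hy'.2 (by
        rw [show -(h + (d' : H)) - -(h + d) = d - d' by abel]; exact S.D.sub_mem d.2 d'.2)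
      exact Subtype.ext (add_left_cancel (neg_injective this))
  · intro d d' hdd
    refine disjoint_left.2 fun y hy hy' => hdd ?_
    obtain ⟨z, -, hz⟩ := hy.2
    obtain ⟨z', -, hz'⟩ := hy'.2
    have hz : (z : E) = y + S.j (h + d) := hz
    have hz' : (z' : E) = y + S.j (h + d') := hz'
    have := S.uniq' (y := y) (a := h + d) (b := h + d') (hz ▸ z.2) (hz' ▸ z'.2) (by
      rw [add_sub_add_left_eq_sub]; exact S.D.sub_mem d'.2 d.2)
    exact Subtype.ext (add_left_cancel this)

lemma res_ergodic (ν : Measure E)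
    (hν : ∀ T, MeasurableSet T → (∀ h y, y + S.j h ∈ T ↔ y ∈ T) → ν T = 0 ∨ ν Tᶜ = 0)
    (T : Set S.X) (hT : MeasurableSet T) (hinv : ∀ g : S.Grp, (fun x => g • x) ⁻¹' T = T) :
    S.res ν T = 0 ∨ S.res ν Tᶜ = 0 := by
  haveI : Countable S.D := S.hD
  have hT' := S.emb.measurableSet_image.2 hT
  set T' : Set E := ⋃ d : S.D, (· + S.j d) ⁻¹' (Subtype.val '' T) with hT'def
  have step : ∀ h y, y ∈ T' → y + S.j h ∈ T' := by
    intro h y hy
    obtain ⟨d, x, hx, e⟩ := mem_iUnion.1 hy
    obtain ⟨d', hd', e'⟩ := S.act_spec h x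
    have hx' : S.act h x ∈ T := by
      rw [← hinv (S.qk h), mem_preimage, mk_smul] at hx
      exact hx
    refine mem_iUnion.2 ⟨⟨d + d', S.D.add_mem d.2 hd'⟩, _, hx', ?_⟩
    rw [e', e]
    simp only [map_add]
    abel
  rcases hν T' (MeasurableSet.iUnion fun d => measurable_add_const _ hT') (fun h y =>
    ⟨fun hy => by simpa using step (-h) _ hy, step h y⟩) with h0 | h0
  · left
    rw [res_apply]
    refine measure_mono_null (fun y hy => mem_iUnion.2 ⟨0, ?_⟩) h0
    simpa using hy
  · right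
    rw [res_apply]
    refine measure_mono_null ?_ h0
    rintro _ ⟨x, hx, rfl⟩ hy
    obtain ⟨d, z, hz, e⟩ := mem_iUnion.1 hy
    have e : (z : E) = x + S.j d := e
    have hd := S.uniq x x.2 d d.2 (e ▸ z.2)
    apply hx
    have : z = x := Subtype.ext (by rw [e, hd]; simp)
    rwa [← this]

lemma pos_of_quasi (ν : Measure E)
    (hν : ∀ h T, MeasurableSet T → ν T = 0 → ν ((· + S.j h) ⁻¹' T) = 0)
    (T : Set E) (hT : ∀ y ∈ T, ∃ d ∈ S.D, y + S.j d ∈ S.X) (h0 : ν T ≠ 0) : ν S.X ≠ 0 := by
  haveI : Countable S.D := S.hD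
  intro hX
  apply h0
  refine measure_mono_null (t := ⋃ d : S.D, (· + S.j d) ⁻¹' S.X) (fun y hy => ?_)
    (measure_iUnion_null fun d => hν _ _ S.hX hX)
  obtain ⟨d, hd, e⟩ := hT y hy
  exact mem_iUnion.2 ⟨⟨d, hd⟩, e⟩

end Setup

end

end Pool.Agent.MP_9152e2_an

end

section

/-! The concrete groups H and D and the transversal. -/

set_option autoImplicit false
set_option linter.style.haveILetI false

open MeasureTheory Set Filter Topology
open scoped ENNReal

namespace Pool.Agent.MP_9152e2_an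

noncomputable section

/-- number of parents at level n -/
def pp : ℕ → ℕ
  | 0 => 1
  | n + 1 => pp n * (2 * (2 ^ n * pp n) + 3) ^ 3 +
      ((2 * (2 ^ n * pp n) + 3 + 2) * (pp n * (2 * (2 ^ n * pp n) + 3) ^ 3) + 1)

/-- inverse bias at level n -/
def ss (n : ℕ) : ℕ := 2 * (2 ^ n * pp n) + 3
/-- number of children of a parent at level n -/
def mm (n : ℕ) : ℕ := ss n ^ 3
/-- number of auxiliary heavy bits at level n -/
def jj (n : ℕ) : ℕ := (ss n + 2) * (pp n * mm n)

lemma pp_succ (n : ℕ) : pp (n + 1) = pp n * mm n + (jj n + 1) := rfl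
lemma pp_pos (n : ℕ) : 1 ≤ pp n := by
  cases n with
  | zero => exact le_rfl
  | succ n => rw [pp_succ]; omega
lemma ss_ge (n : ℕ) : 3 ≤ ss n := by unfold ss; omega
lemma ss_odd (n : ℕ) : Odd (ss n) := ⟨2 ^ n * pp n + 1, by unfold ss; ring⟩
lemma mm_odd (n : ℕ) : Odd (mm n) := (ss_odd n).pow
lemma mm_eq (n : ℕ) : mm n = ss n ^ 3 := rfl
lemma jj_eq (n : ℕ) : jj n = (ss n + 2) * (pp n * mm n) := rfl
lemma ss_ge' (n : ℕ) : (3 : ℝ) ≤ ss n := by exact_mod_cast ss_ge n
lemma ss_pos (n : ℕ) : (0 : ℝ) < ss n := by linarith [ss_ge' n]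
lemma pp_div_ss (n : ℕ) : (pp n : ℝ) / ss n ≤ (1 / 2) ^ n := by
  rw [div_le_iff₀ (ss_pos n)]
  have h : (ss n : ℝ) = 2 * (2 ^ n * pp n) + 3 := by unfold ss; push_cast; ring
  have h2 : (1 / 2 : ℝ) ^ n * 2 ^ n = 1 := by rw [← mul_pow]; norm_num
  have h3 : (0 : ℝ) ≤ (1 / 2) ^ n := by positivity
  have h4 : (0 : ℝ) ≤ pp n := Nat.cast_nonneg _
  rw [h]
  nlinarith

attribute [irreducible] pp ss mm jj

/-- parents at level n: the coordinates of the previous level -/
def P : ℕ → Type
  | 0 => Unit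
  | n + 1 => (P n × Fin (mm n)) ⊕ Option (Fin (jj n))

instance fintypeP : ∀ n, Fintype (P n)
  | 0 => inferInstanceAs (Fintype Unit)
  | n + 1 =>
    letI := fintypeP n
    inferInstanceAs (Fintype ((P n × Fin (mm n)) ⊕ Option (Fin (jj n))))

instance decEqP (n : ℕ) : DecidableEq (P n) := Classical.decEq _

/-- light coordinates -/
abbrev Lt (n : ℕ) : Type := P n × Fin (mm n)
/-- heavy coordinates -/
abbrev Hv (n : ℕ) : Type := Option (Fin (jj n))
/-- all coordinates at level n -/
abbrev C (n : ℕ) : Type := Lt n ⊕ Hv n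

lemma card_P : ∀ n, Fintype.card (P n) = pp n
  | 0 => by unfold pp; rfl
  | n + 1 => by
    change Fintype.card (C n) = _
    rw [pp_succ, Fintype.card_sum, Fintype.card_prod, card_P n, Fintype.card_fin,
      Fintype.card_option, Fintype.card_fin]

lemma card_Lt (n : ℕ) : Fintype.card (Lt n) = pp n * mm n := by
  rw [Fintype.card_prod, card_P, Fintype.card_fin]

/-- the group at level n -/
def F (n : ℕ) : Type := C n → ZMod 2

instance (n : ℕ) : AddCommGroup (F n) := inferInstanceAs (AddCommGroup (C n → ZMod 2))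
instance (n : ℕ) : Fintype (F n) := inferInstanceAs (Fintype (C n → ZMod 2))
instance (n : ℕ) : DecidableEq (F n) := inferInstanceAs (DecidableEq (C n → ZMod 2))
instance (n : ℕ) : MeasurableSpace (F n) := ⊤
instance (n : ℕ) : DiscreteMeasurableSpace (F n) := ⟨fun _ => trivial⟩

@[simp] lemma F_add {n : ℕ} (x y : F n) (i : C n) : (x + y) i = x i + y i := rfl
@[simp] lemma F_sub {n : ℕ} (x y : F n) (i : C n) : (x - y) i = x i - y i := rfl
@[simp] lemma F_neg {n : ℕ} (x : F n) (i : C n) : (-x) i = -x i := rfl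
@[simp] lemma F_zero {n : ℕ} (i : C n) : (0 : F n) i = 0 := rfl
lemma F_ext {n : ℕ} {x y : F n} (h : ∀ i, x i = y i) : x = y := funext h
lemma F_add_self {n : ℕ} (x : F n) : x + x = 0 := F_ext fun i => zmod2_add_self (x i)
lemma F_neg_eq {n : ℕ} (x : F n) : -x = x := neg_eq_of_add_eq_zero_left (F_add_self x)
lemma F_sub_eq {n : ℕ} (x y : F n) : x - y = x + y := by rw [sub_eq_add_neg, F_neg_eq]

/-- weight of light coordinates -/
def ww (n : ℕ) : ℝ := (1 / ss n) ^ 2
lemma ww_pos (n : ℕ) : 0 < ww n := by unfold ww; have := ss_pos n; positivity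
lemma ww_mm (n : ℕ) : ww n * mm n = ss n := by
  have := ss_pos n
  rw [ww, mm_eq]; push_cast; field_simp

/-- weights -/
def Wt (n : ℕ) : C n → ℝ := Sum.elim (fun _ => ww n) (fun _ => 1)
lemma Wt_pos (n : ℕ) (i : C n) : 0 < Wt n i := by
  rcases i with i | i
  · exact ww_pos n
  · exact zero_lt_one

/-- weighted Hamming weight -/
def qq (n : ℕ) (x : F n) : ℝ := ∑ i, Wt n i * ind (x i)

lemma qq_nonneg (n : ℕ) (x : F n) : 0 ≤ qq n x :=
  Finset.sum_nonneg fun i _ => mul_nonneg (Wt_pos n i).le (ind_nonneg _)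

lemma qq_add (n : ℕ) (x y : F n) : qq n (x + y) ≤ qq n x + qq n y := by
  unfold qq
  rw [← Finset.sum_add_distrib]
  refine Finset.sum_le_sum fun i _ => ?_
  rw [← mul_add]
  exact mul_le_mul_of_nonneg_left (ind_add_le _ _) (Wt_pos n i).le

lemma qq_eq (n : ℕ) (x : F n) :
    qq n x = ww n * ∑ l : Lt n, ind (x (Sum.inl l)) + ∑ t : Hv n, ind (x (Sum.inr t)) := by
  unfold qq
  rw [Fintype.sum_sum_type, Finset.mul_sum]
  simp [Wt]

instance (n : ℕ) : NormedAddCommGroup (F n) :=
  AddGroupNorm.toNormedAddCommGroup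
    { toFun := fun x => Real.sqrt (qq n x)
      map_zero' := by simp [qq]
      add_le' := fun x y => by
        have hx := qq_nonneg n x
        have hy := qq_nonneg n y
        rw [Real.sqrt_le_iff]
        refine ⟨by positivity, (qq_add n x y).trans ?_⟩
        nlinarith [Real.sq_sqrt hx, Real.sq_sqrt hy, Real.sqrt_nonneg (qq n x),
          Real.sqrt_nonneg (qq n y)]
      neg' := fun x => by rw [F_neg_eq]
      eq_zero_of_map_eq_zero' := fun x hx => by
        have h0 : qq n x = 0 := (Real.sqrt_eq_zero (qq_nonneg n x)).1 hx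
        unfold qq at h0
        rw [Finset.sum_eq_zero_iff_of_nonneg
          fun i _ => mul_nonneg (Wt_pos n i).le (ind_nonneg _)] at h0
        refine F_ext fun i => ind_eq_zero ?_
        exact (mul_eq_zero.1 (h0 i (Finset.mem_univ i))).resolve_left (Wt_pos n i).ne' }

lemma F_norm (n : ℕ) (x : F n) : ‖x‖ = Real.sqrt (qq n x) := rfl
lemma qq_eq_sq (n : ℕ) (x : F n) : qq n x = ‖x‖ ^ 2 := by
  rw [F_norm, Real.sq_sqrt (qq_nonneg n x)]

instance (n : ℕ) : BorelSpace (F n) := ⟨borel_eq_top_of_discrete.symm⟩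

/-- the space -/
abbrev EE : Type := Π n, F n
/-- the group of summable sequences -/
abbrev HH : Type := lp F 1

instance : MeasurableSpace HH := borel _
instance : BorelSpace HH := ⟨rfl⟩

/-- inclusion -/
def jH : HH →+ EE := lp.coeFnAddMonoidHom F 1

lemma jH_apply (h : HH) (n : ℕ) : jH h n = h n := rfl
lemma jH_inj : Function.Injective jH := fun _ _ h => lp.ext h

lemma jH_meas : Measurable jH :=
  measurable_pi_lambda _ fun n => (lp.lipschitzWith_one_eval 1 n).continuous.measurable

lemma HH_summable (h : HH) : Summable fun n => ‖jH h n‖ := by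
  simpa [jH_apply] using (lp.memℓp h).summable (by simp)

lemma HH_tendsto (h : HH) : Tendsto (fun n => qq n (jH h n)) atTop (𝓝 0) := by
  simp_rw [qq_eq_sq]
  simpa using (HH_summable h).tendsto_atTop_zero.pow 2

/-- finite support -/
def FS {G : ℕ → Type} [∀ n, Zero (G n)] (x : Π n, G n) : Prop := ∃ N, ∀ n ≥ N, x n = 0

lemma FS.add {G : ℕ → Type} [∀ n, AddCommGroup (G n)] {x y : Π n, G n} (hx : FS x) (hy : FS y) :
    FS (x + y) := by
  obtain ⟨N, hN⟩ := hx
  obtain ⟨M, hM⟩ := hy
  exact ⟨max N M, fun n hn => by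
    rw [Pi.add_apply, hN n (le_of_max_le_left hn), hM n (le_of_max_le_right hn), add_zero]⟩

lemma FS.neg {G : ℕ → Type} [∀ n, AddCommGroup (G n)] {x : Π n, G n} (hx : FS x) : FS (-x) := by
  obtain ⟨N, hN⟩ := hx
  exact ⟨N, fun n hn => by rw [Pi.neg_apply, hN n hn, neg_zero]⟩

lemma FS.zero {G : ℕ → Type} [∀ n, AddCommGroup (G n)] : FS (0 : Π n, G n) := ⟨0, fun _ _ => rfl⟩

lemma FS.single {G : ℕ → Type} [∀ n, AddCommGroup (G n)] (n : ℕ) (a : G n) :
    FS (Pi.single n a : Π n, G n) :=
  ⟨n + 1, fun m hm => Pi.single_eq_of_ne (by omega) a⟩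

lemma countable_FS : {x : EE | FS x}.Countable := by
  have : {x : EE | FS x} = ⋃ N, {x : EE | ∀ n ≥ N, x n = 0} := by
    ext x; simp [FS]
  rw [this]
  refine countable_iUnion fun N => Finite.countable ?_
  refine Finite.of_finite_image (f := (Finset.range N).restrict) (toFinite _) ?_
  intro x hx y hy hxy
  funext n
  by_cases hn : n < N
  · exact congrFun hxy ⟨n, Finset.mem_range.2 hn⟩
  · rw [hx n (not_lt.1 hn), hy n (not_lt.1 hn)]

/-- a finitely supported sequence as an element of H -/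
def mkH (x : EE) (hx : FS x) : HH :=
  ⟨x, (memℓp_zero (by
    obtain ⟨N, hN⟩ := hx
    refine (Finset.range N).finite_toSet.subset fun n hn => ?_
    by_contra h
    exact hn (hN n (by simpa using h)))).of_exponent_ge zero_le⟩

@[simp] lemma jH_mkH (x : EE) (hx : FS x) : jH (mkH x hx) = x := rfl

lemma dense_FS : Dense {h : HH | FS (jH h)} := by
  intro h
  refine mem_closure_of_tendsto (lp.hasSum_single (by simp) h) (Eventually.of_forall fun s => ?_)
  simp only [mem_ofPred_eq, map_sum]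
  induction s using Finset.induction_on with
  | empty => exact FS.zero
  | insert a s ha ih =>
    rw [Finset.sum_insert ha]
    exact (FS.single a (h a)).add ih

instance : TopologicalSpace.SeparableSpace HH :=
  ⟨⟨_, countable_FS.preimage_of_injOn jH_inj.injOn, dense_FS⟩⟩

instance : SecondCountableTopology HH := UniformSpace.secondCountable_of_separable HH

/-- a function on the parents of the next level, as an element of the level group -/
def up (n : ℕ) (u : P (n + 1) → ZMod 2) : F n := u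
/-- copy the bit of every parent to all its children -/
def pull (n : ℕ) (u : P n → ZMod 2) : F n := Sum.elim (fun l => u l.1) (fun _ => 0)

@[simp] lemma up_zero (n : ℕ) : up n 0 = 0 := rfl
lemma up_add (n : ℕ) (u v) : up n (u + v) = up n u + up n v := rfl
@[simp] lemma pull_inl (n : ℕ) (u) (l : Lt n) : pull n u (Sum.inl l) = u l.1 := rfl
@[simp] lemma pull_inr (n : ℕ) (u) (t : Hv n) : pull n u (Sum.inr t) = 0 := rfl
@[simp] lemma pull_zero (n : ℕ) : pull n 0 = 0 := F_ext fun i => by rcases i with i | i <;> rfl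
lemma pull_add (n : ℕ) (u v) : pull n (u + v) = pull n u + pull n v :=
  F_ext fun i => by rcases i with i | i <;> simp

/-- boundary -/
def bd (v : Π n, P n → ZMod 2) : EE := fun n => up n (v (n + 1)) + pull n (v n)

lemma bd_add (v v') : bd (v + v') = bd v + bd v' := by
  funext n
  simp only [bd, Pi.add_apply, up_add, pull_add]
  abel

lemma bd_FS {v : Π n, P n → ZMod 2} (hv : FS v) : FS (bd v) := by
  obtain ⟨N, hN⟩ := hv
  exact ⟨N, fun n hn => by simp [bd, hN n hn, hN (n + 1) (by omega)]⟩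

/-- the countable subgroup -/
def DD : AddSubgroup HH where
  carrier := {h | ∃ v, FS v ∧ jH h = bd v}
  zero_mem' := ⟨0, FS.zero, by funext n; simp [bd]⟩
  add_mem' := by
    rintro a b ⟨v, hv, e⟩ ⟨v', hv', e'⟩
    exact ⟨v + v', hv.add hv', by rw [map_add, e, e', bd_add]⟩
  neg_mem' := by
    rintro a ⟨v, hv, e⟩
    refine ⟨v, hv, ?_⟩
    rw [map_neg, e]
    funext n
    exact F_neg_eq _

lemma mkH_bd_mem {v : Π n, P n → ZMod 2} (hv : FS v) : mkH (bd v) (bd_FS hv) ∈ DD := ⟨v, hv, rfl⟩

lemma DD_countable : (DD : Set HH).Countable := by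
  refine (countable_FS.preimage_of_injOn jH_inj.injOn).mono ?_
  rintro h ⟨v, hv, e⟩
  change FS (jH h)
  rw [e]
  exact bd_FS hv

lemma DD_top {d : HH} (hd : d ∈ DD) (h0 : d ≠ 0) :
    ∃ n, ∃ p : P n, ∀ j, jH d n (Sum.inl (p, j)) = 1 := by
  obtain ⟨v, ⟨N, hN⟩, e⟩ := hd
  have hv : ∃ n, v n ≠ 0 := by
    by_contra hc
    push Not at hc
    apply h0
    apply jH_inj
    rw [e, map_zero]
    funext n
    simp [bd, hc]
  have hex : ∃ N, ∀ n ≥ N, v n = 0 := ⟨N, hN⟩
  classical
  have hpos : Nat.find hex ≠ 0 := by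
    intro h
    obtain ⟨n, hn⟩ := hv
    exact hn (Nat.find_spec hex n (by omega))
  obtain ⟨n, hn⟩ := Nat.exists_eq_succ_of_ne_zero hpos
  have h1 : ∀ m ≥ n + 1, v m = 0 := by
    have := Nat.find_spec hex
    rwa [hn] at this
  have h2 : v n ≠ 0 := by
    intro h
    refine Nat.find_min hex (m := n) (by omega) fun m hm => ?_
    rcases hm.eq_or_lt with rfl | hlt
    · exact h
    · exact h1 m hlt
  obtain ⟨p, hp⟩ := Function.ne_iff.1 h2
  refine ⟨n, p, fun j => ?_⟩
  rw [e]
  simp only [bd, h1 (n + 1) le_rfl, up_zero, zero_add, pull_inl]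
  exact (zmod2_cases _).resolve_left hp

/-- number of ones among the children of p -/
def ones (n : ℕ) (x : F n) (p : P n) : ℝ := ∑ j : Fin (mm n), ind (x (Sum.inl (p, j)))

lemma ones_nonneg (n : ℕ) (x : F n) (p : P n) : 0 ≤ ones n x p :=
  Finset.sum_nonneg fun _ _ => ind_nonneg _

lemma sum_ones_le (n : ℕ) (x : F n) : ∑ p, ww n * ones n x p ≤ qq n x := by
  rw [qq_eq, Fintype.sum_prod_type, ← Finset.mul_sum]
  exact le_add_of_nonneg_right (Finset.sum_nonneg fun _ _ => ind_nonneg _)

lemma ones_flip (n : ℕ) (x y : F n) (p : P n) (h : ∀ j, y (Sum.inl (p, j)) = 1) :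
    ones n (x + y) p = mm n - ones n x p := by
  simp [ones, h, ind_add_one]

lemma ones_same (n : ℕ) (x y : F n) (p : P n) (h : ∀ j, y (Sum.inl (p, j)) = 0) :
    ones n (x + y) p = ones n x p := by
  simp [ones, h]

lemma ones_ne (n : ℕ) (x : F n) (p : P n) : 2 * ones n x p ≠ mm n := by
  have : ∃ k : ℕ, ones n x p = k := by
    refine ⟨∑ j : Fin (mm n), if x (Sum.inl (p, j)) = 0 then 0 else 1, ?_⟩
    push_cast
    rfl
  obtain ⟨k, hk⟩ := this
  rw [hk]
  obtain ⟨r, hr⟩ := mm_odd n
  intro h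
  have : 2 * k = mm n := by exact_mod_cast h
  omega

lemma ones_add (n : ℕ) (x y : F n) (p : P n) : |ones n (x + y) p - ones n x p| ≤ ones n y p := by
  unfold ones
  rw [← Finset.sum_sub_distrib]
  exact (Finset.abs_sum_le_sum_abs _ _).trans (Finset.sum_le_sum fun j _ => abs_ind_add_sub _ _)

lemma DD_norm {d : HH} (hd : d ∈ DD) (h0 : d ≠ 0) : 1 ≤ ‖d‖ := by
  obtain ⟨n, p, hp⟩ := DD_top hd h0
  refine le_trans ?_ (lp.norm_apply_le_norm one_ne_zero d n)
  rw [F_norm]
  apply Real.le_sqrt_of_sq_le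
  have h1 : ww n * ones n (jH d n) p ≤ qq n (jH d n) :=
    le_trans (Finset.single_le_sum (f := fun p => ww n * ones n (jH d n) p)
      (fun p _ => mul_nonneg (ww_pos n).le (ones_nonneg _ _ _)) (Finset.mem_univ p))
      (sum_ones_le n _)
  have h2 : ones n (jH d n) p = mm n := by simp [ones, hp]
  rw [h2, ww_mm] at h1
  have := ss_ge' n
  rw [jH_apply] at h1
  linarith

lemma DD_closed : IsClosed (DD : Set HH) := by
  refine Metric.isClosed_of_pairwise_le_dist zero_lt_one fun a ha b hb hab => ?_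
  change 1 ≤ dist a b
  rw [dist_eq_norm]
  exact DD_norm (DD.sub_mem ha hb) (sub_ne_zero.2 hab)

/-- every block has majority zero -/
def Canon (n : ℕ) (x : F n) : Prop := ∀ p, 2 * ones n x p < mm n

/-- normalised deviation from the mean -/
def Sc (n : ℕ) (x : F n) : ℝ := ∑ p, (ww n * (ones n x p - mm n * (1 / 2 - 1 / ss n))) ^ 2

lemma Sc_nonneg (n : ℕ) (x : F n) : 0 ≤ Sc n x := Finset.sum_nonneg fun _ _ => sq_nonneg _

lemma canon_of_Sc {n : ℕ} {x : F n} (h : Sc n x < 1) : Canon n x := by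
  intro p
  have h1 : (ww n * (ones n x p - mm n * (1 / 2 - 1 / ss n))) ^ 2 < 1 :=
    lt_of_le_of_lt (Finset.single_le_sum
      (f := fun p => (ww n * (ones n x p - mm n * (1 / 2 - 1 / ss n))) ^ 2)
      (fun _ _ => sq_nonneg _) (Finset.mem_univ p)) h
  have h2 : ww n * (ones n x p - mm n * (1 / 2 - 1 / ss n)) < 1 := by nlinarith
  have h3 : ww n * (mm n * (1 / ss n)) = 1 := by
    rw [← mul_assoc, ww_mm]; field_simp [(ss_pos n).ne']
  have h4 : ww n * (2 * ones n x p) < ww n * mm n := by nlinarith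
  exact lt_of_mul_lt_mul_left h4 (ww_pos n).le

lemma Sc_add (n : ℕ) (x y : F n) : Sc n (x + y) ≤ 2 * Sc n x + 2 * qq n y ^ 2 := by
  have h1 : ∑ p, (ww n * ones n y p) ^ 2 ≤ qq n y ^ 2 := by
    refine le_trans (Finset.sum_sq_le_sq_sum_of_nonneg
      fun p _ => mul_nonneg (ww_pos n).le (ones_nonneg _ _ _)) ?_
    exact pow_le_pow_left₀ (Finset.sum_nonneg
      fun p _ => mul_nonneg (ww_pos n).le (ones_nonneg _ _ _)) (sum_ones_le n y) 2
  refine le_trans ?_ (add_le_add le_rfl (mul_le_mul_of_nonneg_left h1 zero_le_two))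
  unfold Sc
  rw [Finset.mul_sum, Finset.mul_sum, ← Finset.sum_add_distrib]
  refine Finset.sum_le_sum fun p _ => ?_
  have h2 := ones_add n x y p
  have h3 : (ones n (x + y) p - ones n x p) ^ 2 ≤ ones n y p ^ 2 := by
    rw [← sq_abs]; exact pow_le_pow_left₀ (abs_nonneg _) h2 2
  have h4 : (ones n (x + y) p - mm n * (1 / 2 - 1 / ss n)) ^ 2 ≤
      2 * (ones n x p - mm n * (1 / 2 - 1 / ss n)) ^ 2 + 2 * ones n y p ^ 2 := by
    nlinarith [sq_nonneg (ones n (x + y) p - ones n x p - (ones n x p - mm n * (1 / 2 - 1 / ss n)))]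
  simp only [mul_pow]
  nlinarith [sq_nonneg (ww n)]

/-- the invariant set -/
def E0 : Set EE := {x | Tendsto (fun n => Sc n (x n)) atTop (𝓝 0)}

lemma E0_meas : MeasurableSet E0 :=
  measurableSet_tendsto (𝓝 0) fun n =>
    (Measurable.of_discrete (f := Sc n)).comp (measurable_pi_apply n)

lemma E0_add {x : EE} (hx : x ∈ E0) (h : HH) : x + jH h ∈ E0 := by
  refine squeeze_zero (fun n => Sc_nonneg _ _) (fun n => Sc_add n (x n) (jH h n)) ?_
  simpa using (Tendsto.const_mul 2 hx).add (((HH_tendsto h).pow 2).const_mul 2)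

lemma exists_canon : ∀ (N : ℕ) (x : EE), (∀ n ≥ N, Canon n (x n)) →
    ∃ d ∈ DD, ∀ n, Canon n ((x + jH d) n) := by
  intro N
  induction N with
  | zero => exact fun x hx => ⟨0, DD.zero_mem, fun n => by simpa using hx n (Nat.zero_le n)⟩
  | succ N ih =>
    intro x hx
    classical
    let u : P N → ZMod 2 := fun p => if 2 * ones N (x N) p < mm N then 0 else 1
    let v : Π n, P n → ZMod 2 := Pi.single N u
    have hv : FS v := FS.single (G := fun n => P n → ZMod 2) N u
    obtain ⟨d, hd, h⟩ := ih (x + bd v) (fun n hn => by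
      rcases hn.eq_or_lt with rfl | hlt
      · have e : bd v N = pull N u := by
          simp [bd, v]
        intro p
        rw [Pi.add_apply, e]
        by_cases hp : 2 * ones N (x N) p < mm N
        · rw [ones_same _ _ _ _ (fun j => by simp [u, hp])]
          exact hp
        · rw [ones_flip _ _ _ _ (fun j => by simp [u, hp])]
          have := ones_ne N (x N) p
          have h3 : (mm N : ℝ) < 2 * ones N (x N) p := lt_of_le_of_ne (not_lt.1 hp) this.symm
          linarith
      · have e : bd v n = 0 := by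
          have h1 : v n = 0 := Pi.single_eq_of_ne (M := fun n => P n → ZMod 2) (by omega : n ≠ N) u
          have h2 : v (n + 1) = 0 :=
            Pi.single_eq_of_ne (M := fun n => P n → ZMod 2) (by omega : n + 1 ≠ N) u
          simp [bd, h1, h2]
        rw [Pi.add_apply, e, add_zero]
        exact hx n hlt)
    refine ⟨mkH (bd v) (bd_FS hv) + d, DD.add_mem (mkH_bd_mem hv) hd, fun n => ?_⟩
    rw [map_add, jH_mkH, ← add_assoc]
    exact h n

lemma E0_ex {x : EE} (hx : x ∈ E0) : ∃ d ∈ DD, x + jH d ∈ E0 ∩ {x | ∀ n, Canon n (x n)} := by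
  have : ∀ᶠ n in atTop, Sc n (x n) < 1 := hx.eventually (gt_mem_nhds zero_lt_one)
  obtain ⟨N, hN⟩ := eventually_atTop.1 this
  obtain ⟨d, hd, h⟩ := exists_canon N x fun n hn => canon_of_Sc (hN n hn)
  exact ⟨d, hd, E0_add hx d, h⟩

/-- the concrete setup -/
def SS : Setup HH EE where
  j := jH
  D := DD
  X := E0 ∩ {x | ∀ n, Canon n (x n)}
  hj := jH_meas
  hD := DD_countable
  hDc := DD_closed
  hX := by
    refine E0_meas.inter ?_
    rw [ofPred_forall]
    exact MeasurableSet.iInter fun n =>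
      measurable_pi_apply n (MeasurableSet.of_discrete (s := {y | Canon n y}))
  ex x hx h := by
    obtain ⟨d, hd, e⟩ := E0_ex (E0_add hx.1 h)
    exact ⟨d, hd, by rwa [map_add, ← add_assoc]⟩
  uniq x hx d hd hxd := by
    by_contra h0
    obtain ⟨n, p, hp⟩ := DD_top hd h0
    have h1 := hx.2 n p
    have h2 := hxd.2 n p
    rw [Pi.add_apply, ones_flip _ _ _ _ hp] at h2
    linarith

/-- the special heavy bit at level n -/
def eb (n : ℕ) : F n := Pi.single (Sum.inr none) 1

lemma eb_inl (n : ℕ) (l : Lt n) : eb n (Sum.inl l) = 0 := Pi.single_eq_of_ne (by simp) _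
lemma eb_none (n : ℕ) : eb n (Sum.inr none) = 1 := Pi.single_eq_same _ _
lemma eb_some (n : ℕ) (t : Fin (jj n)) : eb n (Sum.inr (some t)) = 0 :=
  Pi.single_eq_of_ne (by simp) _

lemma X_flip {x : EE} (hx : x ∈ SS.X) (n : ℕ) : x + Pi.single n (eb n) ∈ SS.X := by
  refine ⟨E0_add hx.1 (mkH _ (FS.single n (eb n))), fun m p => ?_⟩
  rw [Pi.add_apply, ones_same]
  · exact hx.2 m p
  · intro j
    by_cases hm : m = n
    · subst hm; rw [Pi.single_eq_same, eb_inl]
    · rw [Pi.single_eq_of_ne hm]; rfl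

lemma flip_smul (n : ℕ) (x : SS.X) :
    ((SS.qk (mkH _ (FS.single n (eb n))) • x : SS.X) : EE) = x + Pi.single n (eb n) := by
  rw [SS.mk_smul]
  exact SS.act_eq _ x (g := mkH _ (FS.single n (eb n))) (by rw [sub_self]; exact SS.D.zero_mem)
    (X_flip x.2 n)

end

end Pool.Agent.MP_9152e2_an

end

section

/-! The quotient group is a Levy group. -/

set_option autoImplicit false
set_option linter.style.haveILetI false

open MeasureTheory Set Filter Topology
open scoped ENNReal

namespace Pool.Agent.MP_9152e2_an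

noncomputable section

/-- the cube of light coordinates, written multiplicatively -/
def Lc (n : ℕ) : Type := Multiplicative (Lt n → ZMod 2)

instance (n : ℕ) : CommGroup (Lc n) := inferInstanceAs (CommGroup (Multiplicative (Lt n → ZMod 2)))
instance (n : ℕ) : Fintype (Lc n) := inferInstanceAs (Fintype (Lt n → ZMod 2))
instance (n : ℕ) : MeasurableSpace (Lc n) := ⊤
instance (n : ℕ) : DiscreteMeasurableSpace (Lc n) := ⟨fun _ => trivial⟩

/-- extension by zero -/
def lam (n : ℕ) (y : Lt n → ZMod 2) : F n := Sum.elim y (fun _ => 0)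

lemma lam_add (n : ℕ) (y z : Lt n → ZMod 2) : lam n (y + z) = lam n y + lam n z :=
  F_ext fun i => by rcases i with i | i <;> simp [lam]

lemma lam_zero (n : ℕ) : lam n 0 = 0 := F_ext fun i => by rcases i with i | i <;> rfl

/-- the cube inside the quotient group -/
def phi (n : ℕ) : Lc n →* SS.Grp where
  toFun y := SS.qk (lp.single 1 n (lam n (Multiplicative.toAdd y)))
  map_one' := by
    change SS.qk (lp.single 1 n (lam n 0)) = 1
    rw [lam_zero, lp.single_zero, SS.mk_zero]
  map_mul' y z := by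
    change SS.qk (lp.single 1 n (lam n (Multiplicative.toAdd y + Multiplicative.toAdd z))) = _
    rw [lam_add, lp.single_add, SS.mk_add]

lemma phi_apply (n : ℕ) (y : Lt n → ZMod 2) :
    phi n (Multiplicative.ofAdd y) = SS.qk (lp.single 1 n (lam n y)) := rfl

lemma jH_single (n : ℕ) (a : F n) : jH (lp.single 1 n a) = Pi.single n a := rfl

lemma single_mem (n : ℕ) (a : F n) : SS.qk (lp.single 1 n a) ∈ (phi (n + 1)).range := by
  let u : P (n + 1) → ZMod 2 := a
  refine ⟨Multiplicative.ofAdd (fun l => u l.1), ?_⟩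
  rw [phi_apply, SS.mk_eq]
  let v : Π n, P n → ZMod 2 := Pi.single (n + 1) u
  refine ⟨v, FS.single (G := fun n => P n → ZMod 2) (n + 1) u, ?_⟩
  rw [map_sub, jH_single, jH_single]
  funext m
  have hv : ∀ k, k ≠ n + 1 → v k = 0 := fun k hk =>
    Pi.single_eq_of_ne (M := fun n => P n → ZMod 2) hk u
  have hv' : v (n + 1) = u := Pi.single_eq_same (M := fun n => P n → ZMod 2) _ u
  rw [Pi.sub_apply, F_sub_eq]
  unfold bd
  congr 1
  · by_cases hm : m = n
    · subst hm
      rw [Pi.single_eq_same, hv']; rfl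
    · rw [Pi.single_eq_of_ne hm, hv _ (by omega), up_zero]
  · by_cases hm : m = n + 1
    · subst hm
      rw [Pi.single_eq_same, hv']; rfl
    · rw [Pi.single_eq_of_ne hm, hv _ hm, pull_zero]

lemma K_mono : Monotone fun n => (phi n).range := by
  refine monotone_nat_of_le_succ fun n => ?_
  rintro _ ⟨y, rfl⟩
  exact single_mem n _

lemma FS_mem : ∀ (N : ℕ) (h : HH), (∀ n ≥ N, jH h n = 0) → SS.qk h ∈ (phi N).range := by
  intro N
  induction N with
  | zero =>
    intro h hh
    have : h = 0 := jH_inj (funext fun n => hh n (Nat.zero_le n))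
    rw [this, SS.mk_zero]
    exact one_mem _
  | succ N ih =>
    intro h hh
    have e : h = (h - lp.single 1 N (jH h N)) + lp.single 1 N (jH h N) := by abel
    rw [e, SS.mk_add]
    refine mul_mem (K_mono (Nat.le_succ N) (ih _ fun n hn => ?_)) (single_mem N _)
    rw [map_sub, jH_single, Pi.sub_apply]
    rcases hn.eq_or_lt with rfl | hlt
    · rw [Pi.single_eq_same, sub_self]
    · rw [Pi.single_eq_of_ne hlt.ne', hh n hlt, sub_self]

lemma K_dense : Dense (⋃ n, ((phi n).range : Set SS.Grp)) := by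
  refine (SS.mk_surj.denseRange.dense_image SS.mk_cont dense_FS).mono ?_
  rintro _ ⟨h, ⟨N, hN⟩, rfl⟩
  exact mem_iUnion.2 ⟨N, FS_mem N h hN⟩

lemma dist_phi (n : ℕ) (y z : Lt n → ZMod 2) :
    dist (phi n (Multiplicative.ofAdd y)) (phi n (Multiplicative.ofAdd z)) ≤
      Real.sqrt (ww n * hammingDist z y) := by
  rw [phi_apply, phi_apply]
  refine (SS.dist_mk_le _ _).trans (le_of_eq ?_)
  rw [← lp.single_sub, lp.norm_single zero_lt_one, F_norm, qq_eq]
  congr 1
  have h1 : ∑ t : Hv n, ind ((lam n y - lam n z) (Sum.inr t)) = 0 := by simp [lam]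
  rw [h1, add_zero]
  congr 1
  unfold hammingDist
  rw [Finset.card_filter]
  push_cast
  refine Finset.sum_congr rfl fun l _ => ?_
  simp only [F_sub, lam, Sum.elim_inl, ind, sub_eq_zero]
  by_cases h : y l = z l
  · simp [h]
  · simp [h, Ne.symm h]

/-- uniform measure on the cube -/
def uu (n : ℕ) : Measure (Lc n) := (Fintype.card (Lc n) : ℝ≥0∞)⁻¹ • Measure.count

instance (n : ℕ) : IsProbabilityMeasure (uu n) := ⟨by
  rw [uu, Measure.smul_apply, ← Finset.coe_univ, Measure.count_apply_finset, Finset.card_univ,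
    smul_eq_mul, ENNReal.inv_mul_cancel (by simp) (by simp)]⟩

instance (n : ℕ) : (uu n).IsMulLeftInvariant := by unfold uu; infer_instance

lemma uu_real (n : ℕ) (A : Finset (Lt n → ZMod 2)) (S : Set (Lc n))
    (h : ∀ y, y ∈ A ↔ Multiplicative.ofAdd y ∈ S) :
    (uu n).real S = A.card / 2 ^ Fintype.card (Lt n) := by
  let A' : Finset (Lc n) := A
  have e : S = (A' : Set (Lc n)) := Set.ext fun y => (h y).symm
  have hc : Fintype.card (Lc n) = 2 ^ Fintype.card (Lt n) := by
    change Fintype.card (Lt n → ZMod 2) = _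
    simp [ZMod.card]
  rw [e, Measure.real, uu, Measure.smul_apply, Measure.count_apply_finset, smul_eq_mul, hc,
    ENNReal.toReal_mul, ENNReal.toReal_inv, ENNReal.toReal_natCast, ENNReal.toReal_natCast]
  push_cast
  rw [div_eq_inv_mul]
  rfl

/-- Haar measure on the n-th compact subgroup -/
def mK (n : ℕ) : Measure (phi n).range := (uu n).map (phi n).rangeRestrict

instance (n : ℕ) : IsProbabilityMeasure (mK n) :=
  Measure.isProbabilityMeasure_map (Measurable.of_discrete).aemeasurable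

lemma mK_haar (n : ℕ) : (mK n).IsHaarMeasure where
  toIsMulLeftInvariant := isMulLeftInvariant_map (phi n).rangeRestrict.toMulHom
    Measurable.of_discrete (phi n).rangeRestrict_surjective
  open_pos U hU hne := by
    rw [mK, Measure.map_apply Measurable.of_discrete hU.measurableSet, uu, Measure.smul_apply,
      smul_eq_mul]
    obtain ⟨x, hx⟩ := hne
    obtain ⟨y, rfl⟩ := (phi n).rangeRestrict_surjective x
    exact mul_ne_zero (by simp) (Measure.count_ne_zero_iff.2 ⟨y, hx⟩)

lemma levy_arith (a b c N w ε δ r : ℝ) (hN : 0 < N) (hw : 0 < w) (hε : 0 < ε) (hδ : 0 < δ)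
    (hb : 0 ≤ b) (hδA : δ ≤ a / N) (hc : a * b * (ε ^ 2 / w) ^ 2 ≤ c * N ^ 2 / 2)
    (hcard : c * w ^ 2 ≤ r) : b / N ≤ r / (2 * ε ^ 4 * δ) := by
  rw [le_div_iff₀ (by positivity)]
  have hB0 : (0 : ℝ) ≤ b / N := by positivity
  have h3 : (a / N) * (b / N) * ε ^ 4 ≤ c * w ^ 2 / 2 := by
    have e1 : (a / N) * (b / N) * ε ^ 4 = (a * b * (ε ^ 2 / w) ^ 2) * (w ^ 2 / N ^ 2) := by
      field_simp
    rw [e1]
    refine (mul_le_mul_of_nonneg_right hc (by positivity)).trans (le_of_eq ?_)
    field_simp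
  have h4 : δ * (b / N) * ε ^ 4 ≤ (a / N) * (b / N) * ε ^ 4 := by
    gcongr
  nlinarith

theorem isLevy : IsLevyGroup SS.Grp := by
  refine ⟨fun n => (phi n).range, inferInstance, mK, K_mono,
    fun n => (Set.finite_range (phi n)).isCompact, K_dense, rfl,
    fun x y g => dist_mul_right x y g, fun n => ⟨mK_haar n, inferInstance⟩, ?_⟩
  intro A hA hlim ε hε
  classical
  obtain ⟨δ, hδ0, hδ⟩ := exists_between hlim
  have hδt : δ ≠ ∞ := ne_top_of_lt hδ
  have hev := eventually_lt_of_lt_liminf hδ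
  set T : ∀ n, Set (phi n).range := fun n => {x | ∃ a ∈ A n, dist (x : SS.Grp) (a : SS.Grp) < ε}
    with hT
  have hTm : ∀ n, MeasurableSet (T n) := fun n => by
    haveI : Finite (phi n).range := (Set.finite_range (phi n)).to_subtype
    exact (toFinite _).measurableSet
  have hδr : 0 < δ.toReal := ENNReal.toReal_pos hδ0.ne' hδt
  have hbound : ∀ᶠ n in atTop, (mK n).real (T n)ᶜ ≤ (1 / 2) ^ n / (2 * ε ^ 4 * δ.toReal) := by
    filter_upwards [hev] with n hn
    set A' : Finset (Lt n → ZMod 2) :=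
      Finset.univ.filter fun y => (phi n).rangeRestrict (Multiplicative.ofAdd y) ∈ A n with hA'
    set B' : Finset (Lt n → ZMod 2) :=
      Finset.univ.filter fun y => (phi n).rangeRestrict (Multiplicative.ofAdd y) ∈ (T n)ᶜ with hB'
    have eA : (mK n).real (A n) = A'.card / 2 ^ Fintype.card (Lt n) := by
      rw [mK, map_measureReal_apply Measurable.of_discrete (hA n)]
      exact uu_real n A' _ fun y => by
        simp only [hA', Finset.mem_filter, Finset.mem_univ, true_and]
        exact Iff.rfl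
    have eB : (mK n).real (T n)ᶜ = B'.card / 2 ^ Fintype.card (Lt n) := by
      rw [mK, map_measureReal_apply Measurable.of_discrete (hTm n).compl]
      exact uu_real n B' _ fun y => by
        simp only [hB', Finset.mem_filter, Finset.mem_univ, true_and]
        exact Iff.rfl
    have hw := ww_pos n
    have hc := cube_conc A' B' (ε ^ 2 / ww n) (by positivity) (by
      intro a ha b hb
      simp only [hA', hB', Finset.mem_filter, Finset.mem_univ, true_and] at ha hb
      have h1 : ε ≤ dist (phi n (Multiplicative.ofAdd b)) (phi n (Multiplicative.ofAdd a)) := by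
        by_contra hlt
        exact hb ⟨_, ha, not_le.1 hlt⟩
      have h2 := h1.trans (dist_phi n b a)
      rw [Real.le_sqrt hε.le (by positivity)] at h2
      rw [div_le_iff₀ hw]
      linarith)
    have hδA : δ.toReal ≤ (mK n).real (A n) := ENNReal.toReal_mono (measure_ne_top _ _) hn.le
    have hN : (0 : ℝ) < 2 ^ Fintype.card (Lt n) := by positivity
    have hcard : (Fintype.card (Lt n) : ℝ) * ww n ^ 2 ≤ (1 / 2) ^ n := by
      refine le_trans (le_of_eq ?_) (pp_div_ss n)
      rw [card_Lt]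
      push_cast
      have hs := ss_pos n
      rw [sq, mul_assoc, ← mul_assoc (mm n : ℝ), mul_comm (mm n : ℝ), ww_mm, ww]
      field_simp
    rw [eA] at hδA
    rw [eB]
    exact levy_arith _ _ _ _ _ _ _ _ hN hw hε hδr (Nat.cast_nonneg _) hδA hc hcard
  have hlim0 : Tendsto (fun n => (mK n).real (T n)ᶜ) atTop (𝓝 0) := by
    refine squeeze_zero' (Eventually.of_forall fun n => measureReal_nonneg) hbound ?_
    simpa using (tendsto_pow_atTop_nhds_zero_of_lt_one (r := (1 / 2 : ℝ)) (by norm_num)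
      (by norm_num)).div_const (2 * ε ^ 4 * δ.toReal)
  have e : ∀ n, mK n (T n) = ENNReal.ofReal (1 - (mK n).real (T n)ᶜ) := by
    intro n
    rw [probReal_compl_eq_one_sub (hTm n), sub_sub_cancel, ofReal_measureReal]
  change Tendsto (fun n => mK n (T n)) atTop (𝓝 1)
  simp_rw [e]
  simpa using ENNReal.tendsto_ofReal (hlim0.const_sub 1)

end

end Pool.Agent.MP_9152e2_an

end

section

/-! The type III action. -/

set_option autoImplicit false
set_option linter.style.haveILetI false
set_option linter.unusedSectionVars false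

open MeasureTheory Set Filter Topology
open scoped ENNReal

namespace Pool.Agent.MP_9152e2_an

noncomputable section

section Wm

variable {Ω : Type} [Fintype Ω] [MeasurableSpace Ω] [DiscreteMeasurableSpace Ω]

/-- measure given by weights -/
def wm (ω : Ω → ℝ) : Measure Ω := ∑ x, ENNReal.ofReal (ω x) • Measure.dirac x

lemma wm_lintegral (ω : Ω → ℝ) (f : Ω → ℝ≥0∞) :
    ∫⁻ x, f x ∂wm ω = ∑ x, ENNReal.ofReal (ω x) * f x := by
  simp [wm, lintegral_finsetSum_measure]

lemma wm_singleton (ω : Ω → ℝ) (y : Ω) : wm ω {y} = ENNReal.ofReal (ω y) := by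
  rw [wm, Measure.finsetSum_apply, Finset.sum_eq_single y]
  · simp
  · intro x _ hx
    simp [hx]
  · simp

lemma wm_prob (ω : Ω → ℝ) (h0 : ∀ x, 0 ≤ ω x) (h1 : ∑ x, ω x = 1) :
    IsProbabilityMeasure (wm ω) := ⟨by
  rw [wm, Measure.finsetSum_apply]
  simp only [Measure.smul_apply, measure_univ, smul_eq_mul, mul_one]
  rw [← ENNReal.ofReal_sum_of_nonneg fun x _ => h0 x, h1, ENNReal.ofReal_one]⟩

lemma wm_lintegral_ofReal (ω : Ω → ℝ) (h0 : ∀ x, 0 ≤ ω x) (f : Ω → ℝ) (hf : ∀ x, 0 ≤ f x) :
    ∫⁻ x, ENNReal.ofReal (f x) ∂wm ω = ENNReal.ofReal (∑ x, ω x * f x) := by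
  rw [wm_lintegral, ENNReal.ofReal_sum_of_nonneg fun x _ => mul_nonneg (h0 x) (hf x)]
  exact Finset.sum_congr rfl fun x _ => (ENNReal.ofReal_mul (h0 x)).symm

end Wm

lemma sum_F (n : ℕ) (g : F n → ℝ) :
    ∑ x, g x = ∑ l : Lt n → ZMod 2, ∑ t : Hv n → ZMod 2, g (Sum.elim l t) := by
  rw [← Fintype.sum_prod_type']
  exact ((Equiv.sumArrowEquivProdArrow (Lt n) (Hv n) (ZMod 2)).symm.sum_comp g).symm

lemma Sc_elim (n : ℕ) (l : Lt n → ZMod 2) (t : Hv n → ZMod 2) :
    Sc n (Sum.elim l t) = Sc n (lam n l) := rfl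

lemma inv_ss_nonneg (n : ℕ) : (0 : ℝ) ≤ 1 / ss n := by have := ss_pos n; positivity
lemma inv_ss_le (n : ℕ) : (1 : ℝ) / ss n ≤ 1 / 3 :=
  one_div_le_one_div_of_le (by norm_num) (ss_ge' n)

lemma varL (n : ℕ) :
    ∑ l : Lt n → ZMod 2, pw (fun _ => 1 / ss n) l * Sc n (lam n l) ≤ (1 / 2) ^ n := by
  unfold Sc
  simp_rw [Finset.mul_sum]
  rw [Finset.sum_comm]
  have key : ∀ p : P n, ∑ l : Lt n → ZMod 2, pw (fun _ => 1 / ss n) l *
      (ww n * (ones n (lam n l) p - mm n * (1 / 2 - 1 / ss n))) ^ 2 ≤ mm n * ww n ^ 2 / 4 := by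
    intro p
    have := var_le (β := fun _ : Lt n => (1 : ℝ) / ss n) (fun i => if i.1 = p then ww n else 0)
    refine le_trans (le_of_eq ?_) (this.trans (le_of_eq ?_))
    · refine Finset.sum_congr rfl fun l _ => ?_
      congr 2
      rw [Fintype.sum_prod_type, Finset.sum_eq_single p]
      · simp [ones, lam, ← Finset.mul_sum]
        left; ring
      · intro q _ hq
        simp [hq]
      · simp
    · rw [Fintype.sum_prod_type, Finset.sum_eq_single p]
      · simp; ring
      · intro q _ hq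
        simp [hq]
      · simp
  refine (Finset.sum_le_sum fun p _ => key p).trans ?_
  rw [Finset.sum_const, Finset.card_univ, card_P, nsmul_eq_mul]
  refine le_trans ?_ (pp_div_ss n)
  have hs := ss_pos n
  have e : (mm n : ℝ) * ww n ^ 2 = 1 / ss n := by
    rw [sq, ← mul_assoc, mul_comm (mm n : ℝ), ww_mm, ww]
    field_simp
  rw [e, div_eq_mul_one_div (pp n : ℝ)]
  have := inv_ss_nonneg n
  have h4 : (0 : ℝ) ≤ pp n := Nat.cast_nonneg _
  nlinarith [mul_nonneg h4 this]

lemma ae_E0 (μ : ∀ n, Measure (F n)) [∀ n, IsProbabilityMeasure (μ n)]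
    (h : ∀ n, ∫⁻ y, ENNReal.ofReal (Sc n y) ∂μ n ≤ ENNReal.ofReal ((1 / 2) ^ n)) :
    ∀ᵐ x ∂Measure.infinitePi μ, x ∈ E0 := by
  have hm : ∀ n, Measurable fun x : EE => ENNReal.ofReal (Sc n (x n)) := fun n =>
    (Measurable.of_discrete (f := fun y => ENNReal.ofReal (Sc n y))).comp (measurable_pi_apply n)
  have h1 : ∫⁻ x, ∑' n, ENNReal.ofReal (Sc n (x n)) ∂Measure.infinitePi μ ≠ ∞ := by
    rw [lintegral_tsum fun n => (hm n).aemeasurable]
    refine ne_top_of_le_ne_top (b := ∑' n, ENNReal.ofReal ((1 / 2) ^ n)) ?_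
      (ENNReal.tsum_le_tsum fun n => ?_)
    · exact summable_geometric_two.tsum_ofReal_ne_top
    · refine le_trans (le_of_eq ?_) (h n)
      exact (measurePreserving_eval_infinitePi μ n).lintegral_comp
        (Measurable.of_discrete (f := fun y => ENNReal.ofReal (Sc n y)))
  filter_upwards [ae_lt_top (Measurable.tsum hm) h1] with x hx
  have h2 := ENNReal.tendsto_atTop_zero_of_tsum_ne_top hx.ne
  have h3 := (ENNReal.tendsto_toReal ENNReal.zero_ne_top).comp h2
  refine h3.congr fun n => ?_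
  simp [Sc_nonneg]

lemma ergodic_of_prod (μ : ∀ n, Measure (F n)) [∀ n, IsProbabilityMeasure (μ n)]
    (T : Set EE) (hT : MeasurableSet T) (h : ∀ g y, y + jH g ∈ T ↔ y ∈ T) :
    Measure.infinitePi μ T = 0 ∨ Measure.infinitePi μ Tᶜ = 0 := by
  rcases zero_one μ T hT (fun γ hγ x => h (mkH γ hγ) x) with h0 | h1
  · exact Or.inl h0
  · exact Or.inr ((prob_compl_eq_zero_iff hT).2 h1)

/-- biases -/
def bb (n : ℕ) : C n → ℝ := Sum.elim (fun _ => 1 / ss n) (fun _ => 1 / 6)

lemma bb_nonneg (n : ℕ) (i : C n) : 0 ≤ bb n i := by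
  rcases i with i | i
  · exact inv_ss_nonneg n
  · simp [bb]
lemma bb_le (n : ℕ) (i : C n) : bb n i ≤ 1 / 3 := by
  rcases i with i | i
  · exact inv_ss_le n
  · simp [bb]; norm_num
lemma bb_sq_le (n : ℕ) (i : C n) : bb n i ^ 2 ≤ Wt n i := by
  rcases i with i | i
  · exact le_rfl
  · simp [bb, Wt]; norm_num

/-- the weights at level n -/
def om (n : ℕ) (x : F n) : ℝ := pw (bb n) x

lemma om_pos (n : ℕ) (x : F n) : 0 < om n x := pw_pos (bb_nonneg n) (bb_le n) x

/-- the biased product measure at level n -/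
def P3 (n : ℕ) : Measure (F n) := wm (om n)

instance (n : ℕ) : IsProbabilityMeasure (P3 n) :=
  wm_prob _ (fun x => (om_pos n x).le) (sum_pw (bb n))

lemma P3_singleton (n : ℕ) (y : F n) : P3 n {y} = ENNReal.ofReal (om n y) := wm_singleton _ _
lemma P3_real (n : ℕ) (y : F n) : (P3 n).real {y} = om n y := by
  rw [Measure.real, P3_singleton, ENNReal.toReal_ofReal (om_pos n y).le]

lemma P3_E0 : ∀ᵐ x ∂Measure.infinitePi P3, x ∈ E0 := by
  refine ae_E0 P3 fun n => ?_
  rw [P3, wm_lintegral_ofReal _ (fun x => (om_pos n x).le) _ (Sc_nonneg n)]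
  refine ENNReal.ofReal_le_ofReal (le_trans (le_of_eq ?_) (varL n))
  rw [sum_F]
  refine Finset.sum_congr rfl fun l _ => ?_
  have e : ∀ t : Hv n → ZMod 2, om n (Sum.elim l t) =
      pw (fun _ => 1 / ss n) l * pw (fun _ => 1 / 6) t := fun t => by
    unfold om pw
    rw [Fintype.prod_sum_type]
    rfl
  simp_rw [e, Sc_elim, mul_right_comm _ (pw (fun _ => (1 : ℝ) / 6) _), ← Finset.mul_sum, sum_pw,
    mul_one]

lemma om_split (n : ℕ) (y : F n) : ∃ r : ℝ, 0 < r ∧ r ≤ 1 ∧
    om n y = bw (1 / 6) (y (Sum.inr none)) * r ∧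
    om n (y - eb n) = bw (1 / 6) (y (Sum.inr none) + 1) * r := by
  refine ⟨∏ i ∈ Finset.univ.erase (Sum.inr none), bw (bb n i) (y i),
    Finset.prod_pos fun i _ => bw_pos (bb_nonneg n i) (bb_le n i) _,
    Finset.prod_le_one (fun i _ => (bw_pos (bb_nonneg n i) (bb_le n i) _).le)
      fun i _ => bw_le_one (bb_nonneg n i) (bb_le n i) _, ?_, ?_⟩
  · exact (Finset.mul_prod_erase _ (fun i => bw (bb n i) (y i)) (Finset.mem_univ _)).symm
  · rw [F_sub_eq, om, pw, ← Finset.mul_prod_erase _ (fun i => bw (bb n i) ((y + eb n) i))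
      (Finset.mem_univ (Sum.inr none)), F_add, eb_none]
    congr 1
    refine Finset.prod_congr rfl fun i hi => ?_
    have : eb n i = 0 := Pi.single_eq_of_ne (Finset.ne_of_mem_erase hi) _
    rw [F_add, this, add_zero]

lemma P3_quasi (h : HH) (T : Set EE) (hT : MeasurableSet T) (h0 : Measure.infinitePi P3 T = 0) :
    Measure.infinitePi P3 ((· + jH h) ⁻¹' T) = 0 := by
  have hs : Summable fun n => qq n (jH h n) := by
    refine Summable.of_nonneg_of_le (fun n => qq_nonneg _ _) (fun n => ?_)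
      ((HH_summable h).mul_left ‖h‖)
    rw [qq_eq_sq, sq]
    exact mul_le_mul_of_nonneg_right (lp.norm_apply_le_norm one_ne_zero h n) (norm_nonneg _)
  refine quasi_invariant P3 (jH h) (Real.exp (29 * ∑' n, qq n (jH h n)))
    (fun n y => by rw [P3_real]; exact om_pos n y) (fun I => ?_) T hT h0
  calc ∏ n ∈ I, ∑ y, (P3 n).real {y - jH h n} ^ 2 / (P3 n).real {y}
      ≤ ∏ n ∈ I, Real.exp (29 * qq n (jH h n)) := by
        refine Finset.prod_le_prod (fun n _ => Finset.sum_nonneg fun y _ => by positivity)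
          fun n _ => ?_
        simp_rw [P3_real, F_sub_eq]
        refine (chi_le (bb_nonneg n) (bb_le n) (jH h n)).trans (Real.exp_le_exp.2 ?_)
        refine mul_le_mul_of_nonneg_left (Finset.sum_le_sum fun i _ => ?_) (by norm_num)
        exact mul_le_mul_of_nonneg_right (bb_sq_le n i) (ind_nonneg _)
    _ = Real.exp (29 * ∑ n ∈ I, qq n (jH h n)) := by rw [Finset.mul_sum, Real.exp_sum]
    _ ≤ _ := Real.exp_le_exp.2 (mul_le_mul_of_nonneg_left
        (hs.sum_le_tsum I fun n _ => qq_nonneg _ _) (by norm_num))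

lemma P3_noAtoms : NullSingletonClass (Measure.infinitePi P3) := by
  refine noAtoms_infinitePi P3 (ENNReal.ofReal (2 / 3))
    (by rw [ENNReal.ofReal_lt_one]; norm_num) fun n y => ?_
  rw [P3_singleton]
  refine ENNReal.ofReal_le_ofReal ?_
  obtain ⟨r, hr0, hr1, e, -⟩ := om_split n y
  rw [e]
  rcases zmod2_cases (y (Sum.inr none)) with h | h <;> rw [h] <;> simp <;> linarith

lemma res_singleton (ν : Measure EE) [NullSingletonClass ν] (x : SS.X) : SS.res ν {x} = 0 := by
  rw [SS.res_apply, image_singleton, measure_singleton]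

theorem typeIII :
    ∃ (G : Type) (_ : Group G) (_ : TopologicalSpace G) (_ : IsTopologicalGroup G)
      (_ : PolishSpace G) (_ : MeasurableSpace G) (_ : BorelSpace G), IsLevyGroup G ∧
      ∃ (X : Type) (_ : MeasurableSpace X) (_ : StandardBorelSpace X) (_ : MulAction G X)
        (μ : Measure X), IsErgodicSpatial G X μ ∧
        ¬ ∃ ν : Measure X, SigmaFinite ν ∧ ν ≪ μ ∧ μ ≪ ν ∧
          ∀ g : G, ν.map (fun x => g • x) = ν := by
  haveI := P3_noAtoms
  refine ⟨SS.Grp, inferInstance, inferInstance, inferInstance, inferInstance, inferInstance,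
    inferInstance, isLevy, SS.X, inferInstance, SS.hX.standardBorel, inferInstance,
    SS.res (Measure.infinitePi P3), ⟨SS.measurable_smul₂, SS.sigmaFinite_res _,
      res_singleton _, SS.res_quasi _ P3_quasi, SS.res_ergodic _ (ergodic_of_prod P3)⟩, ?_⟩
  rintro ⟨ν, hσ, h1, h2, hinv⟩
  haveI : SigmaFinite (ν.map Subtype.val) := SS.emb.sigmaFinite_map
  have hz : ν.map Subtype.val = 0 := by
    refine no_invariant_measure P3 eb (fun n => {y | y (Sum.inr none) = 1})
      (fun n => F_add_self _) (fun n y => ?_) (fun n y hy => ?_) (fun n y => ?_) _ ?_ ?_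
    · simp only [mem_ofPred_eq, F_add, eb_none]
      rcases zmod2_cases (y (Sum.inr none)) with h | h <;> rw [h] <;> decide
    · obtain ⟨r, hr0, hr1, e, e'⟩ := om_split n y
      rw [P3_singleton, P3_singleton, e, e', hy, ← ENNReal.ofReal_ofNat 2,
        ← ENNReal.ofReal_mul (by norm_num), one_add_one_zmod2, bw_zero, bw_one]
      congr 1; ring
    · obtain ⟨r, hr0, hr1, e, e'⟩ := om_split n y
      rw [P3_singleton, P3_singleton, e, e', ← ENNReal.ofReal_ofNat 2,
        ← ENNReal.ofReal_mul (by norm_num)]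
      refine ENNReal.ofReal_le_ofReal ?_
      rcases zmod2_cases (y (Sum.inr none)) with h | h <;> rw [h] <;>
        simp only [zero_add, one_add_one_zmod2, bw_zero, bw_one] <;> linarith
    · refine (h1.map measurable_subtype_coe).trans ?_
      rw [SS.map_res]
      exact Measure.restrict_le_self.absolutelyContinuous
    · intro n T hT
      set g := SS.qk (mkH _ (FS.single n (eb n))) with hg
      have hgm : Measurable fun x : SS.X => g • x := by
        have : (fun x : SS.X => g • x) = SS.act _ := funext (SS.mk_smul _)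
        rw [this]
        exact SS.measurable_act _
      rw [Measure.map_apply measurable_subtype_coe (measurable_add_const _ hT),
        Measure.map_apply measurable_subtype_coe hT]
      conv_rhs => rw [← hinv g, Measure.map_apply hgm (measurable_subtype_coe hT)]
      congr 1
      ext x
      simp only [mem_preimage]
      rw [hg, flip_smul]
  have hν : ν univ = 0 := by
    have := congrArg (fun ρ : Measure EE => ρ univ) hz
    simpa [Measure.map_apply measurable_subtype_coe MeasurableSet.univ] using this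
  have hX := h2 hν
  rw [SS.res_apply, image_univ, Subtype.range_coe] at hX
  refine SS.pos_of_quasi _ P3_quasi E0 (fun y hy => E0_ex hy) ?_ hX
  intro h0
  have h3 : Measure.infinitePi P3 E0ᶜ = 0 := P3_E0
  have := measure_union_null h0 h3
  simp at this

end

end Pool.Agent.MP_9152e2_an

end
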